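import Pool.Agent.H935R2.LT.Defs

/-! Task C1: the trigonometric inequality (helper212). -/

set_option autoImplicit false

namespace Pool.Agent.H935R2.LT

open scoped BigOperators Matrix ComplexOrder
open MeasureTheory

theorem C1_aux (d : ℝ) (h0 : d ≠ 0) (h1 : |d| < Real.pi / 2) :
    Real.cos d ≤ Real.sin d / d := by
  have key : ∀ x : ℝ, 0 < x → x < Real.pi / 2 → Real.cos x ≤ Real.sin x / x := by
    intro x hx hx2
    have hc : 0 < Real.cos x := Real.cos_pos_of_mem_Ioo ⟨by linarith, hx2⟩
    have ht := Real.lt_tan hx hx2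
    rw [Real.tan_eq_sin_div_cos, lt_div_iff₀ hc] at ht
    rw [le_div_iff₀ hx]
    linarith
  rcases lt_or_gt_of_ne h0 with h | h
  · have h2 := key (-d) (by linarith) (by rw [abs_of_neg h] at h1; exact h1)
    rw [Real.cos_neg, Real.sin_neg, neg_div_neg_eq] at h2
    exact h2
  · exact key d h (by rw [abs_of_pos h] at h1; exact h1)

/-- C1: the trigonometric inequality. -/
theorem phi_ineq (A eta : ℝ) (hA : 0 < A) (heta : 0 < eta) (h : A + eta < Real.pi)
    (s t : ℝ) (hs : s ∈ Set.Icc (0:ℝ) 2) (ht : t ∈ Set.Icc (0:ℝ) 2) (hst : s ≠ t)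
    (hd : |s - t| ≤ 1) :
    (A * (Real.cos (A * s / 2 + eta) / Real.sin (A * s / 2 + eta)))
      * (A * (Real.cos (A * t / 2 + eta) / Real.sin (A * t / 2 + eta)))
      + 2 * ((A * (Real.cos (A * s / 2 + eta) / Real.sin (A * s / 2 + eta))
        - A * (Real.cos (A * t / 2 + eta) / Real.sin (A * t / 2 + eta))) / (s - t))
      + A ^ 2 ≤ 0 := by
  obtain ⟨hs0, hs2⟩ := hs
  obtain ⟨ht0, ht2⟩ := ht
  have hst' : s - t ≠ 0 := sub_ne_zero.mpr hst
  set al := A * s / 2 + eta with hal
  set be := A * t / 2 + eta with hbe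
  have hdd : al - be = A * (s - t) / 2 := by rw [hal, hbe]; ring
  have hal0 : 0 < al := by rw [hal]; positivity
  have hbe0 : 0 < be := by rw [hbe]; positivity
  have halpi : al < Real.pi := by rw [hal]; nlinarith
  have hbepi : be < Real.pi := by rw [hbe]; nlinarith
  have hsa : 0 < Real.sin al := Real.sin_pos_of_pos_of_lt_pi hal0 halpi
  have hsb : 0 < Real.sin be := Real.sin_pos_of_pos_of_lt_pi hbe0 hbepi
  have hd0 : al - be ≠ 0 := by
    rw [hdd]
    positivity
  have hd1 : |al - be| < Real.pi / 2 := by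
    rw [hdd, abs_div, abs_mul, abs_of_pos hA, abs_of_pos (by norm_num : (0:ℝ) < 2)]
    have : A * |s - t| ≤ A * 1 := mul_le_mul_of_nonneg_left hd hA.le
    linarith
  have haux := C1_aux (al - be) hd0 hd1
  have hst2 : s - t = 2 * (al - be) / A := by
    rw [hdd]
    field_simp
  have hsin : Real.sin (al - be) = Real.sin al * Real.cos be - Real.cos al * Real.sin be :=
    Real.sin_sub al be
  have hcos : Real.cos (al - be) = Real.cos al * Real.cos be + Real.sin al * Real.sin be :=
    Real.cos_sub al be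
  have key : (A * (Real.cos al / Real.sin al)) * (A * (Real.cos be / Real.sin be))
      + 2 * ((A * (Real.cos al / Real.sin al) - A * (Real.cos be / Real.sin be)) / (s - t))
      + A ^ 2 = A ^ 2 * (Real.cos (al - be) - Real.sin (al - be) / (al - be)) /
        (Real.sin al * Real.sin be) := by
    rw [hst2, hsin, hcos]
    field_simp
    ring
  rw [key]
  apply div_nonpos_of_nonpos_of_nonneg _ (mul_pos hsa hsb).le
  exact mul_nonpos_of_nonneg_of_nonpos (sq_nonneg A) (by linarith)

end Pool.Agent.H935R2.LT
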