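import Pool.Agent.H935R2.LT.Defs

/-! C2: polynomial approximation together with the derivative. -/

set_option autoImplicit false

namespace Pool.Agent.H935R2.LT

open scoped BigOperators Matrix ComplexOrder
open MeasureTheory

theorem c2_antideriv (q : Polynomial ℝ) (c : ℝ) :
    ∃ p : Polynomial ℝ, p.derivative = q ∧ p.eval 0 = c := by
  refine ⟨Polynomial.C c + ∑ k ∈ Finset.range (q.natDegree + 1),
    Polynomial.monomial (k + 1) (q.coeff k / ((k : ℝ) + 1)), ?_, ?_⟩
  · rw [Polynomial.derivative_add, Polynomial.derivative_C, zero_add, Polynomial.derivative_sum]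
    conv_rhs => rw [Polynomial.as_sum_range q]
    refine Finset.sum_congr rfl fun k _ => ?_
    rw [Polynomial.derivative_monomial]
    congr 1
    have : ((k : ℝ) + 1) ≠ 0 := by positivity
    push_cast
    field_simp
  · rw [Polynomial.eval_add, Polynomial.eval_C, Polynomial.eval_finset_sum]
    rw [Finset.sum_eq_zero, add_zero]
    intro k _
    simp [Polynomial.eval_monomial]

/-- C2: polynomial approximation with derivative (Weierstrass for the derivative, then integrate). -/
theorem poly_approx (f f' : ℝ → ℝ) (hf : ∀ x ∈ Set.Icc (0:ℝ) 2, HasDerivWithinAt f (f' x) (Set.Icc 0 2) x)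
    (hf' : ContinuousOn f' (Set.Icc 0 2)) (eps : ℝ) (he : 0 < eps) :
    ∃ p : Polynomial ℝ, (∀ x ∈ Set.Icc (0:ℝ) 2, |p.eval x - f x| ≤ eps) ∧
      (∀ x ∈ Set.Icc (0:ℝ) 2, |p.derivative.eval x - f' x| ≤ eps) := by
  obtain ⟨q, hq⟩ := exists_polynomial_near_of_continuousOn 0 2 f' hf' (eps / 2) (by positivity)
  obtain ⟨p, hp, hp0⟩ := c2_antideriv q (f 0)
  refine ⟨p, fun x hx => ?_, fun x hx => ?_⟩
  · have h1 := Convex.norm_image_sub_le_of_norm_hasDerivWithin_le
      (f := fun x => p.eval x - f x) (f' := fun x => q.eval x - f' x) (s := Set.Icc (0:ℝ) 2)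
      (C := eps / 2) (x := 0) (y := x) (fun y hy => by
        have h2 : HasDerivAt (fun y => p.eval y) (p.derivative.eval y) y := p.hasDerivAt y
        rw [hp] at h2
        exact h2.hasDerivWithinAt.sub (hf y hy))
      (fun y hy => by
        rw [Real.norm_eq_abs]
        exact (hq y hy).le)
      (convex_Icc 0 2) (by norm_num) hx
    rw [hp0, sub_self, sub_zero, sub_zero, Real.norm_eq_abs, Real.norm_eq_abs,
      abs_of_nonneg hx.1] at h1
    refine h1.trans ?_
    have := hx.2
    nlinarith
  · rw [hp]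
    exact (hq x hx).le.trans (by linarith)

end Pool.Agent.H935R2.LT
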