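import Pool.Agent.H935R2.LT.Defs

set_option autoImplicit false

namespace Pool.Agent.H935R2.LT

open scoped BigOperators Matrix ComplexOrder
open MeasureTheory

private theorem C3_aux (p : Polynomial ℝ) (x y : ℝ) :
    PP (p.natDegree + 1) (fun a b => p.coeff (a + b) * ((a + b).choose a : ℝ)) x y =
      p.eval (x + y) := by
  unfold PP
  set n := p.natDegree + 1 with hn
  have h1 : ∀ a ∈ Finset.range n, ∑ b ∈ Finset.range n,
      p.coeff (a + b) * ((a + b).choose a : ℝ) * x ^ a * y ^ b =
      ∑ k ∈ Finset.Ico a n, p.coeff k * (k.choose a : ℝ) * x ^ a * y ^ (k - a) := by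
    intro a ha
    have ha' := Finset.mem_range.1 ha
    have e1 : ∑ k ∈ Finset.Ico a n, p.coeff k * (k.choose a : ℝ) * x ^ a * y ^ (k - a) =
        ∑ b ∈ Finset.range (n - a),
          p.coeff (a + b) * ((a + b).choose a : ℝ) * x ^ a * y ^ (a + b - a) := by
      rw [Finset.sum_Ico_eq_sum_range]
    rw [e1]
    symm
    have e2 : ∀ b ∈ Finset.range (n - a),
        p.coeff (a + b) * ((a + b).choose a : ℝ) * x ^ a * y ^ (a + b - a) =
        p.coeff (a + b) * ((a + b).choose a : ℝ) * x ^ a * y ^ b := by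
      intro b _
      rw [Nat.add_sub_cancel_left]
    rw [Finset.sum_congr rfl e2]
    refine Finset.sum_subset (Finset.range_subset_range.2 (Nat.sub_le _ _)) ?_
    intro b _ hb
    rw [Finset.mem_range, not_lt] at hb
    rw [Polynomial.coeff_eq_zero_of_natDegree_lt (by omega)]
    ring
  rw [Finset.sum_congr rfl h1]
  have h2 : ∑ a ∈ Finset.range n, ∑ k ∈ Finset.Ico a n,
      p.coeff k * (k.choose a : ℝ) * x ^ a * y ^ (k - a) =
      ∑ k ∈ Finset.range n, ∑ a ∈ Finset.range (k + 1),
        p.coeff k * (k.choose a : ℝ) * x ^ a * y ^ (k - a) := by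
    refine Finset.sum_comm' ?_
    intro a k
    simp only [Finset.mem_range, Finset.mem_Ico]
    omega
  rw [h2, Polynomial.eval_eq_sum_range]
  refine Finset.sum_congr rfl fun k _ => ?_
  rw [add_pow, Finset.mul_sum]
  refine Finset.sum_congr rfl fun a _ => ?_
  ring

private theorem C3_DD (n : ℕ) (c : ℕ → ℕ → ℝ) (x z y : ℝ) :
    DD n c x z y * (x - z) = PP n c x y - PP n c z y := by
  unfold DD PP
  rw [Finset.sum_mul, ← Finset.sum_sub_distrib]
  refine Finset.sum_congr rfl fun a _ => ?_
  rw [Finset.sum_mul, ← Finset.sum_sub_distrib]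
  refine Finset.sum_congr rfl fun b _ => ?_
  have h := (Commute.all x z).geom_sum₂_mul a
  calc c a b * (∑ r ∈ Finset.range a, x ^ r * z ^ (a - 1 - r)) * y ^ b * (x - z)
      = c a b * ((∑ r ∈ Finset.range a, x ^ r * z ^ (a - 1 - r)) * (x - z)) * y ^ b := by ring
    _ = c a b * (x ^ a - z ^ a) * y ^ b := by rw [h]
    _ = _ := by ring

private theorem C3_deriv (n : ℕ) (c : ℕ → ℕ → ℝ) (x y : ℝ) :
    HasDerivAt (fun x => PP n c x y) (DD n c x x y) x := by
  unfold DD PP
  refine HasDerivAt.fun_sum fun a _ => ?_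
  refine HasDerivAt.fun_sum fun b _ => ?_
  have e : ∑ r ∈ Finset.range a, x ^ r * x ^ (a - 1 - r) = (a : ℝ) * x ^ (a - 1) := by
    have : ∀ r ∈ Finset.range a, x ^ r * x ^ (a - 1 - r) = x ^ (a - 1) := by
      intro r hr
      rw [Finset.mem_range] at hr
      rw [← pow_add]
      congr 1
      omega
    rw [Finset.sum_congr rfl this, Finset.sum_const, Finset.card_range, nsmul_eq_mul]
  rw [e]
  exact ((hasDerivAt_pow a x).const_mul (c a b)).mul_const (y ^ b)

/-- C3: expansion of `p(x+y)` and of its divided difference. -/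
theorem poly_expand (p : Polynomial ℝ) :
    ∃ (n : ℕ) (c : ℕ → ℕ → ℝ), (∀ a b, c a b = c b a) ∧
      (∀ x y, PP n c x y = p.eval (x + y)) ∧
      (∀ x z y, x ≠ z → DD n c x z y = (p.eval (x + y) - p.eval (z + y)) / (x - z)) ∧
      (∀ x y, DD n c x x y = p.derivative.eval (x + y)) := by
  refine ⟨p.natDegree + 1, fun a b => p.coeff (a + b) * ((a + b).choose a : ℝ), ?_,
    C3_aux p, ?_, ?_⟩
  · intro a b
    simp only
    rw [add_comm b a, Nat.choose_symm_add]
  · intro x z y hxz
    rw [eq_div_iff (sub_ne_zero.2 hxz), C3_DD, C3_aux, C3_aux]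
  · intro x y
    have h1 := C3_deriv (p.natDegree + 1) (fun a b => p.coeff (a + b) * ((a + b).choose a : ℝ)) x y
    have h2 : HasDerivAt (fun x => p.eval (x + y)) (p.derivative.eval (x + y)) x := by
      exact (p.hasDerivAt (x + y)).comp_add_const x y
    have h3 : (fun x => PP (p.natDegree + 1)
        (fun a b => p.coeff (a + b) * ((a + b).choose a : ℝ)) x y) = fun x => p.eval (x + y) := by
      funext x
      exact C3_aux p x y
    rw [h3] at h1
    exact h1.unique h2

end Pool.Agent.H935R2.LT
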