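import Pool.Agent.H935R2.LT.C1
import Pool.Agent.H935R2.LT.C2
import Pool.Agent.H935R2.LT.C3

/-! Existence of the certificate for every `lam < pi^2/4` (from C1, C2, C3). -/

set_option autoImplicit false

namespace Pool.Agent.H935R2.LT

open scoped BigOperators Matrix ComplexOrder
open MeasureTheory

namespace C4h

/-- the function `A cot (A s / 2 + eta)` -/
noncomputable def ff (A eta s : ℝ) : ℝ := A * (Real.cos (A * s / 2 + eta) / Real.sin (A * s / 2 + eta))

/-- its derivative -/
noncomputable def gg (A eta s : ℝ) : ℝ := -(A ^ 2 / 2) / Real.sin (A * s / 2 + eta) ^ 2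

theorem sin_pos' {A eta s : ℝ} (hA : 0 < A) (heta : 0 < eta) (h : A + eta < Real.pi)
    (hs : s ∈ Set.Icc (0:ℝ) 2) : 0 < Real.sin (A * s / 2 + eta) := by
  obtain ⟨h0, h2⟩ := hs
  apply Real.sin_pos_of_pos_of_lt_pi
  · positivity
  · have : A * s ≤ A * 2 := mul_le_mul_of_nonneg_left h2 hA.le
    linarith

theorem hasDerivAt_ff {A eta s : ℝ} (hs : 0 < Real.sin (A * s / 2 + eta)) :
    HasDerivAt (ff A eta) (gg A eta s) s := by
  have h1 : HasDerivAt (fun s : ℝ => A * s / 2 + eta) (A / 2) s := by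
    have := (((hasDerivAt_id s).const_mul A).div_const 2).add_const eta
    simpa using this
  have h2 := (Real.hasDerivAt_cos (A * s / 2 + eta)).comp s h1
  have h3 := (Real.hasDerivAt_sin (A * s / 2 + eta)).comp s h1
  have h4 := (h2.div h3 hs.ne').const_mul A
  refine h4.congr_deriv ?_
  unfold gg
  simp only [Function.comp_apply]
  have hsc := Real.sin_sq_add_cos_sq (A * s / 2 + eta)
  set S := Real.sin (A * s / 2 + eta) with hS
  set K := Real.cos (A * s / 2 + eta) with hK
  have hS0 : S ≠ 0 := hs.ne'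
  field_simp
  linear_combination (-A ^ 2) * hsc

theorem identity {A eta s : ℝ} (hs : 0 < Real.sin (A * s / 2 + eta)) :
    ff A eta s * ff A eta s + 2 * gg A eta s + A ^ 2 = 0 := by
  unfold ff gg
  have hsc := Real.sin_sq_add_cos_sq (A * s / 2 + eta)
  set S := Real.sin (A * s / 2 + eta) with hS
  set K := Real.cos (A * s / 2 + eta) with hK
  have hS0 : S ≠ 0 := hs.ne'
  field_simp
  linear_combination (A ^ 2) * hsc

theorem cont_gg {A eta : ℝ} (hA : 0 < A) (heta : 0 < eta) (h : A + eta < Real.pi) :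
    ContinuousOn (gg A eta) (Set.Icc 0 2) := by
  unfold gg
  apply ContinuousOn.div continuousOn_const
  · exact (Continuous.continuousOn (by fun_prop))
  · intro s hs
    exact pow_ne_zero _ (sin_pos' hA heta h hs).ne'

end C4h

/-- C4: the certificate exists for all `lam < pi^2/4` (from C1, C2, C3). -/
theorem cert_exists (lam : ℝ) (h : lam < Real.pi ^ 2 / 4) : ∃ n c, Cert lam n c := by
  have hpi := Real.pi_pos
  set m : ℝ := max lam 0 with hm
  have hm0 : 0 ≤ m := le_max_right _ _
  have hml : lam ≤ m := le_max_left _ _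
  have hm4 : 4 * m < Real.pi ^ 2 := by
    rw [hm]
    rcases max_cases lam 0 with ⟨e, _⟩ | ⟨e, _⟩
    · rw [e]; linarith
    · rw [e, mul_zero]; positivity
  have hq : √(4 * m) < Real.pi := by
    rw [Real.sqrt_lt' hpi]
    exact hm4
  have hq0 : 0 ≤ √(4 * m) := Real.sqrt_nonneg _
  set A : ℝ := (√(4 * m) + Real.pi) / 2 with hA
  have hApos : 0 < A := by rw [hA]; linarith
  have hApi : A < Real.pi := by rw [hA]; linarith
  have hAq : √(4 * m) < A := by rw [hA]; linarith
  have hA4 : 4 * lam < A ^ 2 := by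
    have h1 : √(4 * m) ^ 2 < A ^ 2 := pow_lt_pow_left₀ hAq hq0 (by norm_num)
    rw [Real.sq_sqrt (by linarith)] at h1
    linarith
  set eta : ℝ := (Real.pi - A) / 2 with heta
  have hetap : 0 < eta := by rw [heta]; linarith
  have hsum : A + eta < Real.pi := by rw [heta]; linarith
  have hsin : ∀ s ∈ Set.Icc (0:ℝ) 2, 0 < Real.sin (A * s / 2 + eta) :=
    fun s hs => C4h.sin_pos' hApos hetap hsum hs
  have hder : ∀ s ∈ Set.Icc (0:ℝ) 2, HasDerivWithinAt (C4h.ff A eta) (C4h.gg A eta s) (Set.Icc 0 2) s :=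
    fun s hs => (C4h.hasDerivAt_ff (hsin s hs)).hasDerivWithinAt
  have hcont : ContinuousOn (C4h.ff A eta) (Set.Icc 0 2) :=
    fun s hs => (hder s hs).continuousWithinAt
  obtain ⟨B, hB⟩ := isCompact_Icc.exists_bound_of_continuousOn hcont
  have hB0 : 0 ≤ B := (norm_nonneg _).trans (hB 0 ⟨le_refl _, by norm_num⟩)
  have hdel : 0 < A ^ 2 - 4 * lam := by linarith
  set eps : ℝ := min (1 / 2) ((A ^ 2 - 4 * lam) / (2 * B + 3)) with heps
  have heps0 : 0 < eps := by
    rw [heps]
    apply lt_min (by norm_num)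
    positivity
  have heps1 : eps ≤ 1 := (min_le_left _ _).trans (by norm_num)
  have heps2 : eps * (2 * B + 3) ≤ A ^ 2 - 4 * lam := by
    have : eps ≤ (A ^ 2 - 4 * lam) / (2 * B + 3) := min_le_right _ _
    rwa [le_div_iff₀ (by linarith)] at this
  obtain ⟨p, hp1, hp2⟩ := poly_approx (C4h.ff A eta) (C4h.gg A eta) hder
    (C4h.cont_gg hApos hetap hsum) eps heps0
  obtain ⟨n, c, hc1, hc2, hc3, hc4⟩ := poly_expand p
  refine ⟨n, c, hc1, ?_⟩
  intro x hx y hy z hz
  have hs : x + y ∈ Set.Icc (0:ℝ) 2 := ⟨by linarith [hx.1, hy.1], by linarith [hx.2, hy.2]⟩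
  have ht : z + y ∈ Set.Icc (0:ℝ) 2 := ⟨by linarith [hz.1, hy.1], by linarith [hz.2, hy.2]⟩
  have hprod : p.eval (x + y) * p.eval (z + y) ≤
      C4h.ff A eta (x + y) * C4h.ff A eta (z + y) + eps * (2 * B + 1) := by
    have a1 := hp1 (x + y) hs
    have a2 := hp1 (z + y) ht
    have b1 : |C4h.ff A eta (x + y)| ≤ B := hB _ hs
    have b2 : |C4h.ff A eta (z + y)| ≤ B := hB _ ht
    have b3 : |p.eval (z + y)| ≤ B + eps := by
      have : p.eval (z + y) = (p.eval (z + y) - C4h.ff A eta (z + y)) + C4h.ff A eta (z + y) := by ring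
      rw [this]
      exact (abs_add_le _ _).trans (by linarith)
    have e : p.eval (x + y) * p.eval (z + y) - C4h.ff A eta (x + y) * C4h.ff A eta (z + y)
        = (p.eval (x + y) - C4h.ff A eta (x + y)) * p.eval (z + y)
          + C4h.ff A eta (x + y) * (p.eval (z + y) - C4h.ff A eta (z + y)) := by ring
    have e1 : (p.eval (x + y) - C4h.ff A eta (x + y)) * p.eval (z + y) ≤ eps * (B + eps) := by
      refine (le_abs_self _).trans ?_
      rw [abs_mul]
      exact mul_le_mul a1 b3 (abs_nonneg _) heps0.le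
    have e2 : C4h.ff A eta (x + y) * (p.eval (z + y) - C4h.ff A eta (z + y)) ≤ B * eps := by
      refine (le_abs_self _).trans ?_
      rw [abs_mul]
      exact mul_le_mul b1 a2 (abs_nonneg _) hB0
    have e3 : eps * eps ≤ eps * 1 := mul_le_mul_of_nonneg_left heps1 heps0.le
    nlinarith [e, e1, e2, e3]
  rw [hc2, hc2]
  by_cases hxz : x = z
  · subst hxz
    rw [hc4]
    have h1 := C4h.identity (hsin (x + y) hs)
    have h2 := (abs_le.mp (hp2 (x + y) hs)).2
    linarith
  · rw [hc3 x z y hxz]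
    have hst : x + y ≠ z + y := fun hh => hxz (by linarith)
    have h1 := phi_ineq A eta hApos hetap hsum (x + y) (z + y) hs ht hst (by
      rw [abs_le]
      constructor
      · linarith [hx.1, hz.2]
      · linarith [hx.2, hz.1])
    have h2 : ‖(p.eval (x + y) - C4h.ff A eta (x + y)) - (p.eval (z + y) - C4h.ff A eta (z + y))‖
        ≤ eps * ‖(x + y) - (z + y)‖ := by
      refine Convex.norm_image_sub_le_of_norm_hasDerivWithin_le
        (f := fun w => p.eval w - C4h.ff A eta w)
        (f' := fun w => p.derivative.eval w - C4h.gg A eta w) (s := Set.Icc (0:ℝ) 2)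
        ?_ ?_ (convex_Icc _ _) ht hs
      · intro w hw
        exact (p.hasDerivWithinAt w (Set.Icc 0 2)).sub (hder w hw)
      · intro w hw
        exact hp2 w hw
    have h3 : (p.eval (x + y) - p.eval (z + y)) / (x - z) ≤
        (C4h.ff A eta (x + y) - C4h.ff A eta (z + y)) / (x + y - (z + y)) + eps := by
      have e0 : x + y - (z + y) = x - z := by ring
      rw [e0] at h2 ⊢
      have hne : x - z ≠ 0 := sub_ne_zero.mpr hxz
      have e1 : (p.eval (x + y) - p.eval (z + y)) / (x - z) -
          (C4h.ff A eta (x + y) - C4h.ff A eta (z + y)) / (x - z)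
          = ((p.eval (x + y) - C4h.ff A eta (x + y)) -
            (p.eval (z + y) - C4h.ff A eta (z + y))) / (x - z) := by
        rw [← sub_div]
        congr 1
        ring
      have e2 : |((p.eval (x + y) - C4h.ff A eta (x + y)) -
            (p.eval (z + y) - C4h.ff A eta (z + y))) / (x - z)| ≤ eps := by
        rw [abs_div, div_le_iff₀ (abs_pos.mpr hne)]
        exact h2
      have e3 := (le_abs_self _).trans e2
      linarith
    have h4 : C4h.ff A eta (x + y) * C4h.ff A eta (z + y)
      + 2 * ((C4h.ff A eta (x + y) - C4h.ff A eta (z + y)) / (x + y - (z + y))) + A ^ 2 ≤ 0 := h1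
    linarith

end Pool.Agent.H935R2.LT
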