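import Mathlib

/-! Lieb-Thirring inequality in dimension one, gamma = 1: definitions (helper935). -/

set_option autoImplicit false

namespace Pool.Agent.H935R2.LT

open scoped BigOperators Matrix ComplexOrder
open MeasureTheory

/-- bivariate polynomial `P(x,y) = sum c_ab x^a y^b`. -/
noncomputable def PP (n : ℕ) (c : ℕ → ℕ → ℝ) (x y : ℝ) : ℝ :=
  ∑ a ∈ Finset.range n, ∑ b ∈ Finset.range n, c a b * x ^ a * y ^ b

/-- divided difference of `P` in the first variable. -/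
noncomputable def DD (n : ℕ) (c : ℕ → ℕ → ℝ) (x z y : ℝ) : ℝ :=
  ∑ a ∈ Finset.range n, ∑ b ∈ Finset.range n,
    c a b * (∑ r ∈ Finset.range a, x ^ r * z ^ (a - 1 - r)) * y ^ b

/-- certificate -/
structure Cert (lam : ℝ) (n : ℕ) (c : ℕ → ℕ → ℝ) : Prop where
  symm : ∀ a b, c a b = c b a
  ineq : ∀ x ∈ Set.Icc (0:ℝ) 1, ∀ y ∈ Set.Icc (0:ℝ) 1, ∀ z ∈ Set.Icc (0:ℝ) 1,
    PP n c x y * PP n c z y + 2 * DD n c x z y + 4 * lam ≤ 0

/-- moments `<u, M^a u>`. -/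
noncomputable def mom {N : ℕ} (M : Matrix (Fin N) (Fin N) ℂ) (u : Fin N → ℂ) (a : ℕ) : ℝ :=
  (star u ⬝ᵥ ((M ^ a) *ᵥ u)).re

/-- derivative of the moments along `M' = u u^*`, `u' = v`. -/
noncomputable def dmom {N : ℕ} (M : Matrix (Fin N) (Fin N) ℂ) (u v : Fin N → ℂ) (a : ℕ) : ℝ :=
  2 * (star v ⬝ᵥ ((M ^ a) *ᵥ u)).re + ∑ r ∈ Finset.range a, mom M u r * mom M u (a - 1 - r)

end Pool.Agent.H935R2.LT
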