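import Pool.Agent.H935R2.LT.Defs

set_option autoImplicit false

/-! I1: properties of `M(x) = int_{-infty}^x u u^*`. -/

namespace Pool.Agent.H935R2.LT

open scoped BigOperators Matrix ComplexOrder
open MeasureTheory

/-- the entries -/
noncomputable def I1f {N : ℕ} (u : Fin N → ℝ → ℂ) (i j : Fin N) (y : ℝ) : ℂ := u i y * star (u j y)

theorem I1f_cont {N : ℕ} (u : Fin N → ℝ → ℂ)
    (hu : ∀ n, ContDiff ℝ 1 (u n) ∧ HasCompactSupport (u n)) (i j : Fin N) :
    Continuous (I1f u i j) := by
  unfold I1f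
  exact (hu i).1.continuous.mul (hu j).1.continuous.star

theorem I1f_int {N : ℕ} (u : Fin N → ℝ → ℂ)
    (hu : ∀ n, ContDiff ℝ 1 (u n) ∧ HasCompactSupport (u n)) (i j : Fin N) :
    Integrable (I1f u i j) := by
  refine (I1f_cont u hu i j).integrable_of_hasCompactSupport ?_
  exact (hu i).2.mul_right

/-- the function `sum_i conj(w_i) u_i` -/
noncomputable def I1g {N : ℕ} (u : Fin N → ℝ → ℂ) (w : Fin N → ℂ) (y : ℝ) : ℂ :=
  ∑ i, star (w i) * u i y

theorem I1_sq {N : ℕ} (u : Fin N → ℝ → ℂ) (w : Fin N → ℂ) (y : ℝ) :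
    ∑ i, star (w i) * ∑ j, I1f u i j y * w j = ((‖I1g u w y‖ ^ 2 : ℝ) : ℂ) := by
  have h1 : ((‖I1g u w y‖ ^ 2 : ℝ) : ℂ) = I1g u w y * star (I1g u w y) := by
    have h2 := Complex.mul_conj (I1g u w y)
    rw [Complex.normSq_eq_norm_sq] at h2
    exact h2.symm
  rw [h1]
  unfold I1g I1f
  have h3 : star (∑ i, star (w i) * u i y) = ∑ j, w j * star (u j y) := by
    rw [star_sum]
    refine Finset.sum_congr rfl fun j _ => ?_
    rw [star_mul', star_star]
  rw [h3, Finset.sum_mul]
  refine Finset.sum_congr rfl fun i _ => ?_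
  rw [Finset.mul_sum, Finset.mul_sum]
  refine Finset.sum_congr rfl fun j _ => ?_
  ring

theorem I1_quad {N : ℕ} (u : Fin N → ℝ → ℂ)
    (hu : ∀ n, ContDiff ℝ 1 (u n) ∧ HasCompactSupport (u n)) (w : Fin N → ℂ) (S : Set ℝ) :
    ∑ i, star (w i) * ∑ j, (∫ y in S, I1f u i j y) * w j =
      ((∫ y in S, ‖I1g u w y‖ ^ 2 : ℝ) : ℂ) := by
  have hI : ∀ i j, IntegrableOn (I1f u i j) S := fun i j => (I1f_int u hu i j).integrableOn
  rw [← integral_complex_ofReal]
  have h1 : ∀ y, ((‖I1g u w y‖ ^ 2 : ℝ) : ℂ) = ∑ i, star (w i) * ∑ j, I1f u i j y * w j :=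
    fun y => (I1_sq u w y).symm
  simp_rw [h1]
  rw [integral_finsetSum]
  · refine Finset.sum_congr rfl fun i _ => ?_
    rw [integral_const_mul]
    congr 1
    rw [integral_finsetSum]
    · refine Finset.sum_congr rfl fun j _ => ?_
      rw [integral_mul_const]
    · intro j _
      exact (hI i j).mul_const _
  · intro i _
    refine Integrable.const_mul ?_ _
    exact integrable_finsetSum _ fun j _ => (hI i j).mul_const _

theorem I1g_int {N : ℕ} (u : Fin N → ℝ → ℂ)
    (hu : ∀ n, ContDiff ℝ 1 (u n) ∧ HasCompactSupport (u n)) (w : Fin N → ℂ) :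
    Integrable (fun y => ‖I1g u w y‖ ^ 2) := by
  have h1 : Integrable (fun y => ∑ i, star (w i) * ∑ j, I1f u i j y * w j) := by
    refine integrable_finsetSum _ fun i _ => Integrable.const_mul ?_ _
    exact integrable_finsetSum _ fun j _ => (I1f_int u hu i j).mul_const _
  have h2 := h1.re
  refine h2.congr (Filter.Eventually.of_forall fun y => ?_)
  show RCLike.re (∑ i, star (w i) * ∑ j, I1f u i j y * w j) = ‖I1g u w y‖ ^ 2
  rw [I1_sq]
  exact Complex.ofReal_re _

/-- I1: properties of `M(x) = int_{-infty}^x u u^*`. -/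
theorem Mprops {N : ℕ} (u : Fin N → ℝ → ℂ)
    (hu : ∀ n, ContDiff ℝ 1 (u n) ∧ HasCompactSupport (u n))
    (ho : ∀ n m, ∫ x, star (u n x) * u m x = if n = m then (1 : ℂ) else 0) :
    ∃ M : ℝ → Matrix (Fin N) (Fin N) ℂ,
      (∀ x, (M x).PosSemidef) ∧ (∀ x, (1 - M x).PosSemidef) ∧
      (∀ x i j, HasDerivAt (fun y => M y i j) (u i x * star (u j x)) x) := by
  obtain ⟨M, hM⟩ : ∃ M : ℝ → Matrix (Fin N) (Fin N) ℂ,
      ∀ x i j, M x i j = ∫ y in Set.Iic x, I1f u i j y := ⟨fun x => Matrix.of fun i j =>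
        ∫ y in Set.Iic x, I1f u i j y, fun _ _ _ => rfl⟩
  have hherm : ∀ x, (M x).IsHermitian := by
    intro x
    refine Matrix.IsHermitian.ext fun i j => ?_
    rw [hM, hM]
    have h1 : star (∫ y in Set.Iic x, I1f u j i y) = ∫ y in Set.Iic x, star (I1f u j i y) :=
      integral_conj.symm
    rw [h1]
    refine integral_congr_ae (Filter.Eventually.of_forall fun y => ?_)
    show star (I1f u j i y) = I1f u i j y
    unfold I1f
    rw [star_mul', star_star, mul_comm]
  have hquad : ∀ x (w : Fin N → ℂ), star w ⬝ᵥ (M x *ᵥ w) =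
      ((∫ y in Set.Iic x, ‖I1g u w y‖ ^ 2 : ℝ) : ℂ) := by
    intro x w
    rw [← I1_quad u hu w (Set.Iic x)]
    unfold dotProduct Matrix.mulVec dotProduct
    refine Finset.sum_congr rfl fun i _ => ?_
    rw [Pi.star_apply]
    congr 1
    refine Finset.sum_congr rfl fun j _ => ?_
    show M x i j * w j = _
    rw [hM]
  have hfull : ∀ w : Fin N → ℂ, star w ⬝ᵥ w = ((∫ y, ‖I1g u w y‖ ^ 2 : ℝ) : ℂ) := by
    intro w
    have h1 := I1_quad u hu w Set.univ
    rw [setIntegral_univ] at h1
    rw [← h1]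
    unfold dotProduct
    refine Finset.sum_congr rfl fun i _ => ?_
    rw [Pi.star_apply]
    congr 1
    have h2 : ∀ j, (∫ y in Set.univ, I1f u i j y) = if j = i then (1 : ℂ) else 0 := by
      intro j
      rw [setIntegral_univ, ← ho j i]
      refine integral_congr_ae (Filter.Eventually.of_forall fun y => ?_)
      show I1f u i j y = star (u j y) * u i y
      unfold I1f
      rw [mul_comm]
    simp_rw [h2]
    simp
  refine ⟨M, ?_, ?_, ?_⟩
  · intro x
    refine Matrix.PosSemidef.of_dotProduct_mulVec_nonneg (hherm x) fun w => ?_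
    rw [hquad]
    exact Complex.zero_le_real.2 (integral_nonneg fun y => by positivity)
  · intro x
    refine Matrix.PosSemidef.of_dotProduct_mulVec_nonneg
      (Matrix.isHermitian_one.sub (hherm x)) fun w => ?_
    rw [Matrix.sub_mulVec, Matrix.one_mulVec, dotProduct_sub, hquad, hfull, ← Complex.ofReal_sub]
    refine Complex.zero_le_real.2 ?_
    rw [sub_nonneg]
    exact setIntegral_le_integral (I1g_int u hu w)
      (Filter.Eventually.of_forall fun y => by positivity)
  · intro x i j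
    have hc := I1f_cont u hu i j
    have hi := I1f_int u hu i j
    have h1 : (fun y => M y i j) = fun y => (∫ t in Set.Iic x, I1f u i j t) +
        ∫ t in x..y, I1f u i j t := by
      funext y
      rw [hM, ← intervalIntegral.integral_Iic_sub_Iic hi.integrableOn hi.integrableOn]
      ring
    rw [h1]
    have h2 : HasDerivAt (fun y => ∫ t in x..y, I1f u i j t) (I1f u i j x) x :=
      intervalIntegral.integral_hasDerivAt_right (hc.intervalIntegrable _ _)
        hc.stronglyMeasurable.stronglyMeasurableAtFilter hc.continuousAt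
    exact h2.const_add _

end Pool.Agent.H935R2.LT
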