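import Pool.Agent.H935R2.LT.Defs

/-! I2: integration of the pointwise inequality -/

set_option autoImplicit false

namespace Pool.Agent.H935R2.LT

open scoped BigOperators Matrix ComplexOrder
open MeasureTheory

/-- statement of `hasDerivAt_mom` -/
def M1St : Prop := ∀ {N : ℕ} (M : ℝ → Matrix (Fin N) (Fin N) ℂ) (u : ℝ → Fin N → ℂ)
    (v : Fin N → ℂ) (x : ℝ) (_hM : ∀ y, (M y).IsHermitian)
    (_hM' : ∀ i j, HasDerivAt (fun y => M y i j) (u x i * star (u x j)) x)
    (_hu : ∀ i, HasDerivAt (fun y => u y i) (v i) x) (a : ℕ),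
    HasDerivAt (fun y => mom (M y) (u y) a) (dmom (M x) (u x) v a) x

theorem I2_cont_form {N : ℕ} {M : ℝ → Matrix (Fin N) (Fin N) ℂ} (hM : Continuous M)
    {w u : ℝ → Fin N → ℂ} (hw : Continuous w) (hu : Continuous u) (a : ℕ) :
    Continuous fun x => (star (w x) ⬝ᵥ ((M x ^ a) *ᵥ u x)).re :=
  Complex.continuous_re.comp
    (Continuous.dotProduct (continuous_star.comp hw) ((hM.pow a).matrix_mulVec hu))

theorem I2_zero_form {N : ℕ} (M : Matrix (Fin N) (Fin N) ℂ) (w : Fin N → ℂ) (a : ℕ) :
    (star w ⬝ᵥ ((M ^ a) *ᵥ (0 : Fin N → ℂ))).re = 0 := by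
  rw [Matrix.mulVec_zero, dotProduct_zero, Complex.zero_re]

/-- I2 with M1 as a hypothesis -/
theorem integrate_of (hM1 : M1St) {N : ℕ} (u : Fin N → ℝ → ℂ)
    (hu : ∀ n, ContDiff ℝ 1 (u n) ∧ HasCompactSupport (u n))
    (M : ℝ → Matrix (Fin N) (Fin N) ℂ) (hM : ∀ x, (M x).PosSemidef)
    (hM' : ∀ x i j, HasDerivAt (fun y => M y i j) (u i x * star (u j x)) x)
    (lam : ℝ) (n : ℕ) (c : ℕ → ℕ → ℝ) (hc : ∀ a b, c a b = c b a)
    (hpt : ∀ x, lam * (∑ i, ‖u i x‖ ^ 2) ^ 3
      + 1 / 2 * ∑ a ∈ Finset.range n, ∑ b ∈ Finset.range n, c a b *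
        dmom (M x) (fun i => u i x) (fun i => deriv (u i) x) a * mom (M x) (fun i => u i x) b
      ≤ ∑ i, ‖deriv (u i) x‖ ^ 2) :
    lam * ∫ x, (∑ i, ‖u i x‖ ^ 2) ^ 3 ≤ ∑ i, ∫ x, ‖deriv (u i) x‖ ^ 2 := by
  -- continuity
  have huc : ∀ i, Continuous (u i) := fun i => (hu i).1.continuous
  have hdc : ∀ i, Continuous (deriv (u i)) := fun i => (hu i).1.continuous_deriv le_rfl
  have hUc : Continuous fun x => (fun i => u i x : Fin N → ℂ) := continuous_pi fun i => huc i
  have hVc : Continuous fun x => (fun i => deriv (u i) x : Fin N → ℂ) := continuous_pi fun i => hdc i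
  have hMc : Continuous M := by
    refine continuous_matrix fun i j => ?_
    exact continuous_iff_continuousAt.2 fun x => (hM' x i j).continuousAt
  have hmc : ∀ a, Continuous fun x => mom (M x) (fun i => u i x) a := fun a =>
    I2_cont_form hMc hUc hUc a
  have hdmc : ∀ a, Continuous fun x => dmom (M x) (fun i => u i x) (fun i => deriv (u i) x) a := by
    intro a
    unfold dmom
    exact ((I2_cont_form hMc hVc hUc a).const_mul 2).add
      (continuous_finset_sum _ fun r _ => (hmc r).mul (hmc _))
  -- compact support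
  set K : Set ℝ := ⋃ i : Fin N, tsupport (u i) with hK
  have hKc : IsCompact K := isCompact_iUnion fun i => (hu i).2
  have hu0 : ∀ x, x ∉ K → ∀ i, u i x = 0 := by
    intro x hx i
    exact image_eq_zero_of_notMem_tsupport fun h => hx (Set.mem_iUnion.2 ⟨i, h⟩)
  have hd0 : ∀ x, x ∉ K → ∀ i, deriv (u i) x = 0 := by
    intro x hx i
    by_contra h
    exact hx (Set.mem_iUnion.2 ⟨i, support_deriv_subset (Function.mem_support.2 h)⟩)
  have hU0 : ∀ x, x ∉ K → (fun i => u i x : Fin N → ℂ) = 0 := fun x hx => funext fun i => hu0 x hx i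
  have hm0 : ∀ a x, x ∉ K → mom (M x) (fun i => u i x) a = 0 := by
    intro a x hx
    unfold mom
    rw [hU0 x hx]
    exact I2_zero_form _ _ _
  -- the function F
  have hder : ∀ a x, HasDerivAt (fun y => mom (M y) (fun i => u i y) a)
      (dmom (M x) (fun i => u i x) (fun i => deriv (u i) x) a) x := by
    intro a x
    exact hM1 M (fun y i => u i y) (fun i => deriv (u i) x) x (fun y => (hM y).1)
      (fun i j => hM' x i j)
      (fun i => ((hu i).1.differentiable one_ne_zero x).hasDerivAt) a
  set F : ℝ → ℝ := fun x => 1 / 4 * ∑ a ∈ Finset.range n, ∑ b ∈ Finset.range n,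
    c a b * (mom (M x) (fun i => u i x) a * mom (M x) (fun i => u i x) b) with hF
  set F' : ℝ → ℝ := fun x => 1 / 2 * ∑ a ∈ Finset.range n, ∑ b ∈ Finset.range n, c a b *
        dmom (M x) (fun i => u i x) (fun i => deriv (u i) x) a * mom (M x) (fun i => u i x) b
    with hF'
  have hFd : ∀ x, HasDerivAt F (F' x) x := by
    intro x
    have h1 : HasDerivAt F (1 / 4 * ∑ a ∈ Finset.range n, ∑ b ∈ Finset.range n,
        c a b * (dmom (M x) (fun i => u i x) (fun i => deriv (u i) x) a *
          mom (M x) (fun i => u i x) b + mom (M x) (fun i => u i x) a *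
          dmom (M x) (fun i => u i x) (fun i => deriv (u i) x) b)) x := by
      refine HasDerivAt.const_mul _ (HasDerivAt.fun_sum fun a _ => HasDerivAt.fun_sum fun b _ => ?_)
      exact HasDerivAt.const_mul _ ((hder a x).mul (hder b x))
    have h2 : (1 / 4 * ∑ a ∈ Finset.range n, ∑ b ∈ Finset.range n,
        c a b * (dmom (M x) (fun i => u i x) (fun i => deriv (u i) x) a *
          mom (M x) (fun i => u i x) b + mom (M x) (fun i => u i x) a *
          dmom (M x) (fun i => u i x) (fun i => deriv (u i) x) b)) = F' x := by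
      have h3 : ∑ a ∈ Finset.range n, ∑ b ∈ Finset.range n,
          c a b * (mom (M x) (fun i => u i x) a *
            dmom (M x) (fun i => u i x) (fun i => deriv (u i) x) b) =
          ∑ a ∈ Finset.range n, ∑ b ∈ Finset.range n,
          c a b * (dmom (M x) (fun i => u i x) (fun i => deriv (u i) x) a *
            mom (M x) (fun i => u i x) b) := by
        rw [Finset.sum_comm]
        refine Finset.sum_congr rfl fun a _ => Finset.sum_congr rfl fun b _ => ?_
        rw [hc b a]
        ring
      simp only [mul_add, Finset.sum_add_distrib]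
      rw [h3, hF']
      simp only [mul_assoc]
      ring
    rw [h2] at h1
    exact h1
  have hFc : Continuous F := by
    refine continuous_const.mul (continuous_finset_sum _ fun a _ => continuous_finset_sum _ fun b _ => ?_)
    exact continuous_const.mul ((hmc a).mul (hmc b))
  have hF'c : Continuous F' := by
    refine continuous_const.mul (continuous_finset_sum _ fun a _ => continuous_finset_sum _ fun b _ => ?_)
    exact (continuous_const.mul (hdmc a)).mul (hmc b)
  have hF0 : ∀ x, x ∉ K → F x = 0 := by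
    intro x hx
    show 1 / 4 * ∑ a ∈ Finset.range n, ∑ b ∈ Finset.range n,
      c a b * (mom (M x) (fun i => u i x) a * mom (M x) (fun i => u i x) b) = 0
    rw [Finset.sum_eq_zero fun a _ => Finset.sum_eq_zero fun b _ => by rw [hm0 b x hx]; ring]
    ring
  have hF'0 : ∀ x, x ∉ K → F' x = 0 := by
    intro x hx
    show 1 / 2 * ∑ a ∈ Finset.range n, ∑ b ∈ Finset.range n, c a b *
        dmom (M x) (fun i => u i x) (fun i => deriv (u i) x) a * mom (M x) (fun i => u i x) b = 0
    rw [Finset.sum_eq_zero fun a _ => Finset.sum_eq_zero fun b _ => by rw [hm0 b x hx]; ring]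
    ring
  have hFi : Integrable F := hFc.integrable_of_hasCompactSupport (HasCompactSupport.intro hKc hF0)
  have hF'i : Integrable F' :=
    hF'c.integrable_of_hasCompactSupport (HasCompactSupport.intro hKc hF'0)
  have hzero : ∫ x, F' x = 0 := integral_eq_zero_of_hasDerivAt_of_integrable hFd hF'i hFi
  -- the other two functions
  have hRi : Integrable fun x => lam * (∑ i, ‖u i x‖ ^ 2) ^ 3 := by
    refine Continuous.integrable_of_hasCompactSupport ?_ (HasCompactSupport.intro hKc fun x hx => ?_)
    · exact continuous_const.mul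
        ((continuous_finset_sum _ fun i _ => (huc i).norm.pow 2).pow 3)
    · rw [Finset.sum_eq_zero fun i _ => by rw [hu0 x hx i, norm_zero]; ring]
      ring
  have hDi : ∀ i, Integrable fun x => ‖deriv (u i) x‖ ^ 2 := by
    intro i
    refine Continuous.integrable_of_hasCompactSupport ((hdc i).norm.pow 2)
      (HasCompactSupport.intro hKc fun x hx => ?_)
    rw [hd0 x hx i, norm_zero]
    ring
  have key : ∫ x, (lam * (∑ i, ‖u i x‖ ^ 2) ^ 3 + F' x) ≤ ∫ x, ∑ i, ‖deriv (u i) x‖ ^ 2 :=
    integral_mono (hRi.add hF'i) (integrable_finset_sum _ fun i _ => hDi i) fun x => hpt x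
  rw [integral_add hRi hF'i, hzero, add_zero, integral_const_mul,
    integral_finset_sum _ fun i _ => hDi i] at key
  exact key

end Pool.Agent.H935R2.LT
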