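import Pool.Agent.H935R2.LT.Defs

/-! M1: derivative of the moments (helper642). -/

set_option autoImplicit false

namespace Pool.Agent.H935R2.LT

open scoped BigOperators Matrix ComplexOrder
open MeasureTheory

namespace M1aux

variable {N : ℕ}

/-- derivative of a power of a matrix, entrywise -/
theorem pow_deriv (M : ℝ → Matrix (Fin N) (Fin N) ℂ) (H : Matrix (Fin N) (Fin N) ℂ) (x : ℝ)
    (hM' : ∀ i j, HasDerivAt (fun y => M y i j) (H i j) x) (a : ℕ) :
    ∀ i j, HasDerivAt (fun y => (M y ^ a) i j)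
      ((∑ r ∈ Finset.range a, M x ^ r * H * M x ^ (a - 1 - r)) i j) x := by
  induction a with
  | zero =>
    intro i j
    simp only [pow_zero, Finset.range_zero, Finset.sum_empty, Matrix.zero_apply]
    exact hasDerivAt_const x _
  | succ a ih =>
    intro i j
    have h1 : (fun y => (M y ^ (a + 1)) i j) = fun y => ∑ k, (M y ^ a) i k * M y k j := by
      funext y
      rw [pow_succ, Matrix.mul_apply]
    have h2 : (∑ r ∈ Finset.range (a + 1), M x ^ r * H * M x ^ (a + 1 - 1 - r)) =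
        (∑ r ∈ Finset.range a, M x ^ r * H * M x ^ (a - 1 - r)) * M x + M x ^ a * H := by
      rw [Finset.sum_range_succ, Finset.sum_mul]
      congr 1
      · refine Finset.sum_congr rfl fun r hr => ?_
        rw [Finset.mem_range] at hr
        have h3 : a + 1 - 1 - r = (a - 1 - r) + 1 := by omega
        rw [h3, pow_succ, Matrix.mul_assoc, Matrix.mul_assoc, Matrix.mul_assoc]
      · have h3 : a + 1 - 1 - a = 0 := by omega
        rw [h3, pow_zero, Matrix.mul_one]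
    rw [h1, h2, Matrix.add_apply, Matrix.mul_apply, Matrix.mul_apply, ← Finset.sum_add_distrib]
    exact HasDerivAt.fun_sum fun k _ => (ih i k).mul (hM' k j)

theorem herm_swap (B : Matrix (Fin N) (Fin N) ℂ) (hB : B.IsHermitian) (u v : Fin N → ℂ) :
    star u ⬝ᵥ (B *ᵥ v) = star (star v ⬝ᵥ (B *ᵥ u)) := by
  rw [Matrix.dotProduct_mulVec]
  nth_rewrite 1 [← hB.eq]
  rw [← Matrix.star_mulVec, Matrix.star_dotProduct]

theorem herm_im (B : Matrix (Fin N) (Fin N) ℂ) (hB : B.IsHermitian) (u : Fin N → ℂ) :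
    (star u ⬝ᵥ (B *ᵥ u)).im = 0 := by
  have h := herm_swap B hB u u
  have h2 := congrArg Complex.im h
  have h3 : (star (star u ⬝ᵥ (B *ᵥ u))).im = -(star u ⬝ᵥ (B *ᵥ u)).im := Complex.conj_im _
  rw [h3] at h2
  linarith

theorem rank_one (A B : Matrix (Fin N) (Fin N) ℂ) (u : Fin N → ℂ) :
    star u ⬝ᵥ ((A * (Matrix.of fun i j => u i * star (u j)) * B) *ᵥ u) =
      (star u ⬝ᵥ (A *ᵥ u)) * (star u ⬝ᵥ (B *ᵥ u)) := by
  rw [← Matrix.mulVec_mulVec, ← Matrix.mulVec_mulVec]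
  have h : (Matrix.of fun i j => u i * star (u j)) *ᵥ (B *ᵥ u) =
      (star u ⬝ᵥ (B *ᵥ u)) • u := by
    funext i
    simp only [Matrix.mulVec, dotProduct, Matrix.of_apply, Pi.smul_apply, smul_eq_mul,
      Pi.star_apply, Finset.sum_mul]
    refine Finset.sum_congr rfl fun j _ => ?_
    ring
  rw [h, Matrix.mulVec_smul, dotProduct_smul, smul_eq_mul, mul_comm]

theorem sum_mulVec' (s : Finset ℕ) (A : ℕ → Matrix (Fin N) (Fin N) ℂ) (u w : Fin N → ℂ) :
    w ⬝ᵥ ((∑ r ∈ s, A r) *ᵥ u) = ∑ r ∈ s, w ⬝ᵥ (A r *ᵥ u) := by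
  rw [Matrix.sum_mulVec, dotProduct_sum]

end M1aux

open M1aux

/-- M1: derivative of the moments. -/
theorem hasDerivAt_mom {N : ℕ} (M : ℝ → Matrix (Fin N) (Fin N) ℂ) (u : ℝ → Fin N → ℂ)
    (v : Fin N → ℂ) (x : ℝ) (hM : ∀ y, (M y).IsHermitian)
    (hM' : ∀ i j, HasDerivAt (fun y => M y i j) (u x i * star (u x j)) x)
    (hu : ∀ i, HasDerivAt (fun y => u y i) (v i) x) (a : ℕ) :
    HasDerivAt (fun y => mom (M y) (u y) a) (dmom (M x) (u x) v a) x := by
  have hpow := pow_deriv M (Matrix.of fun i j => u x i * star (u x j)) x hM' a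
  obtain ⟨D, hD⟩ : ∃ D : Matrix (Fin N) (Fin N) ℂ, D = ∑ r ∈ Finset.range a,
      M x ^ r * (Matrix.of fun i j => u x i * star (u x j)) * M x ^ (a - 1 - r) := ⟨_, rfl⟩
  rw [← hD] at hpow
  have hg : HasDerivAt (fun y => star (u y) ⬝ᵥ ((M y ^ a) *ᵥ u y))
      (star v ⬝ᵥ ((M x ^ a) *ᵥ u x) + (star (u x) ⬝ᵥ (D *ᵥ u x) +
        star (u x) ⬝ᵥ ((M x ^ a) *ᵥ v))) x := by
    have h1 : (fun y => star (u y) ⬝ᵥ ((M y ^ a) *ᵥ u y)) =
        fun y => ∑ i, star (u y i) * ∑ j, (M y ^ a) i j * u y j := rfl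
    have h2 : star v ⬝ᵥ ((M x ^ a) *ᵥ u x) + (star (u x) ⬝ᵥ (D *ᵥ u x) +
        star (u x) ⬝ᵥ ((M x ^ a) *ᵥ v)) =
        ∑ i, (star (v i) * (∑ j, (M x ^ a) i j * u x j) +
          star (u x i) * ∑ j, (D i j * u x j + (M x ^ a) i j * v j)) := by
      simp only [dotProduct, Matrix.mulVec, Pi.star_apply, Finset.sum_add_distrib, mul_add]
    rw [h1, h2]
    exact HasDerivAt.fun_sum fun i _ => (hu i).star.mul
      (HasDerivAt.fun_sum fun j _ => (hpow i j).mul (hu j))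
  have hre := Complex.reCLM.hasFDerivAt.comp_hasDerivAt x hg
  have hB : (M x ^ a).IsHermitian := (hM x).pow a
  have hval : Complex.reCLM (star v ⬝ᵥ ((M x ^ a) *ᵥ u x) + (star (u x) ⬝ᵥ (D *ᵥ u x) +
        star (u x) ⬝ᵥ ((M x ^ a) *ᵥ v))) = dmom (M x) (u x) v a := by
    rw [Complex.reCLM_apply, Complex.add_re, Complex.add_re]
    have h3 : (star (u x) ⬝ᵥ ((M x ^ a) *ᵥ v)).re = (star v ⬝ᵥ ((M x ^ a) *ᵥ u x)).re := by
      rw [herm_swap _ hB]
      exact Complex.conj_re _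
    have h4 : (star (u x) ⬝ᵥ (D *ᵥ u x)).re =
        ∑ r ∈ Finset.range a, mom (M x) (u x) r * mom (M x) (u x) (a - 1 - r) := by
      rw [hD, sum_mulVec', Complex.re_sum]
      refine Finset.sum_congr rfl fun r _ => ?_
      rw [rank_one, Complex.mul_re, herm_im _ ((hM x).pow r), zero_mul, sub_zero]
      rfl
    rw [h3, h4]
    unfold dmom
    ring
  rw [hval] at hre
  exact hre

end Pool.Agent.H935R2.LT
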