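import Pool.Agent.H935R2.LT.Defs

/-!
# M2: diagonalisation of the moments
-/

set_option autoImplicit false

namespace Pool.Agent.H935R2.LT

open scoped BigOperators Matrix ComplexOrder
open MeasureTheory

private theorem m2_star_mul (z : ℂ) : (star z * z).re = ‖z‖ ^ 2 := by
  rw [Complex.star_def, mul_comm, Complex.mul_conj, Complex.ofReal_re, Complex.normSq_eq_norm_sq]

private theorem m2_norm {N : ℕ} (u : Fin N → ℂ) : (star u ⬝ᵥ u).re = ∑ i, ‖u i‖ ^ 2 := by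
  unfold dotProduct
  rw [Complex.re_sum]
  exact Finset.sum_congr rfl fun i _ => m2_star_mul (u i)

private theorem m2_pow_re (x : ℝ) (a : ℕ) (z : ℂ) : ((x : ℂ) ^ a * z).re = x ^ a * z.re := by
  rw [← Complex.ofReal_pow, Complex.re_ofReal_mul]

/-- M2: diagonalisation of the moments. -/
theorem mom_diag {N : ℕ} (M : Matrix (Fin N) (Fin N) ℂ) (hM : M.PosSemidef)
    (hM1 : (1 - M).PosSemidef) (u v : Fin N → ℂ) :
    ∃ (x : Fin N → ℝ) (p q : Fin N → ℂ), (∀ i, x i ∈ Set.Icc (0:ℝ) 1) ∧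
      (∀ a, mom M u a = ∑ i, x i ^ a * ‖p i‖ ^ 2) ∧
      (∀ a, (star v ⬝ᵥ ((M ^ a) *ᵥ u)).re = ∑ i, x i ^ a * (star (q i) * p i).re) ∧
      (∑ i, ‖u i‖ ^ 2 = ∑ i, ‖p i‖ ^ 2) ∧ (∑ i, ‖v i‖ ^ 2 = ∑ i, ‖q i‖ ^ 2) := by
  obtain ⟨U, x, hU1, hU2, hMd⟩ : ∃ (U : Matrix (Fin N) (Fin N) ℂ) (x : Fin N → ℝ),
      U * Uᴴ = 1 ∧ Uᴴ * U = 1 ∧ M = U * Matrix.diagonal (fun i => (x i : ℂ)) * Uᴴ := by
    refine ⟨(hM.1.eigenvectorUnitary : Matrix (Fin N) (Fin N) ℂ), hM.1.eigenvalues, ?_, ?_, ?_⟩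
    · exact Matrix.mem_unitaryGroup_iff.1 (hM.1.eigenvectorUnitary).2
    · exact Matrix.mem_unitaryGroup_iff'.1 (hM.1.eigenvectorUnitary).2
    · have h := hM.1.spectral_theorem
      rw [Unitary.conjStarAlgAut_apply] at h
      exact h
  have hpow : ∀ a : ℕ, M ^ a = U * Matrix.diagonal (fun i => (x i : ℂ) ^ a) * Uᴴ := by
    intro a
    induction a with
    | zero => simp [hU1]
    | succ a ih =>
      rw [pow_succ, ih]
      nth_rewrite 1 [hMd]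
      rw [show U * Matrix.diagonal (fun i => (x i : ℂ) ^ a) * Uᴴ *
        (U * Matrix.diagonal (fun i => (x i : ℂ)) * Uᴴ) =
        U * (Matrix.diagonal (fun i => (x i : ℂ) ^ a) * (Uᴴ * U) *
          Matrix.diagonal (fun i => (x i : ℂ))) * Uᴴ by simp only [Matrix.mul_assoc],
        hU2, Matrix.mul_one, Matrix.diagonal_mul_diagonal]
      simp only [pow_succ]
  have key : ∀ (a : ℕ) (v u : Fin N → ℂ), star v ⬝ᵥ ((M ^ a) *ᵥ u) =
      ∑ i, (x i : ℂ) ^ a * (star ((Uᴴ *ᵥ v) i) * (Uᴴ *ᵥ u) i) := by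
    intro a v u
    have e1 : star v ⬝ᵥ ((M ^ a) *ᵥ u) =
        star (Uᴴ *ᵥ v) ⬝ᵥ (Matrix.diagonal (fun i => (x i : ℂ) ^ a) *ᵥ (Uᴴ *ᵥ u)) := by
      rw [hpow, Matrix.star_mulVec, Matrix.conjTranspose_conjTranspose, ← Matrix.mulVec_mulVec,
        ← Matrix.mulVec_mulVec, Matrix.dotProduct_mulVec]
    rw [e1]
    unfold dotProduct
    refine Finset.sum_congr rfl fun i _ => ?_
    rw [Matrix.mulVec_diagonal, Pi.star_apply]
    ring
  have hnorm : ∀ u : Fin N → ℂ, ∑ i, ‖u i‖ ^ 2 = ∑ i, ‖(Uᴴ *ᵥ u) i‖ ^ 2 := by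
    intro u
    have h := congrArg Complex.re (key 0 u u)
    rw [pow_zero, Matrix.one_mulVec, m2_norm, Complex.re_sum] at h
    rw [h]
    refine Finset.sum_congr rfl fun i _ => ?_
    rw [pow_zero, one_mul, m2_star_mul]
  refine ⟨x, Uᴴ *ᵥ u, Uᴴ *ᵥ v, fun i => ⟨?_, ?_⟩, fun a => ?_, fun a => ?_, hnorm u, hnorm v⟩
  · have h1 := hM.conjTranspose_mul_mul_same U
    have h2 : Uᴴ * M * U = Matrix.diagonal (fun i => (x i : ℂ)) := by
      rw [hMd, show Uᴴ * (U * Matrix.diagonal (fun i => (x i : ℂ)) * Uᴴ) * U =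
        (Uᴴ * U) * Matrix.diagonal (fun i => (x i : ℂ)) * (Uᴴ * U) by
          simp only [Matrix.mul_assoc], hU2, Matrix.one_mul, Matrix.mul_one]
    rw [h2, Matrix.posSemidef_diagonal_iff] at h1
    have h3 := h1 i
    exact_mod_cast h3
  · have h1 := hM1.conjTranspose_mul_mul_same U
    have h2 : Uᴴ * (1 - M) * U = Matrix.diagonal (fun i => 1 - (x i : ℂ)) := by
      rw [Matrix.mul_sub, Matrix.sub_mul, Matrix.mul_one, hU2, hMd,
        show Uᴴ * (U * Matrix.diagonal (fun i => (x i : ℂ)) * Uᴴ) * U =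
        (Uᴴ * U) * Matrix.diagonal (fun i => (x i : ℂ)) * (Uᴴ * U) by
          simp only [Matrix.mul_assoc], hU2, Matrix.one_mul, Matrix.mul_one,
        ← Matrix.diagonal_one, Matrix.diagonal_sub]
    rw [h2, Matrix.posSemidef_diagonal_iff] at h1
    have h3 := h1 i
    rw [sub_nonneg] at h3
    exact_mod_cast h3
  · unfold mom
    rw [key, Complex.re_sum]
    refine Finset.sum_congr rfl fun i _ => ?_
    rw [m2_pow_re, m2_star_mul]
  · rw [key, Complex.re_sum]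
    refine Finset.sum_congr rfl fun i _ => ?_
    rw [m2_pow_re]

end Pool.Agent.H935R2.LT
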