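import Pool.Agent.H935R2.LT.Defs

set_option autoImplicit false

namespace Pool.Agent.H935R2.LT

open scoped BigOperators Matrix ComplexOrder
open MeasureTheory

theorem m3_PP_symm {n : ℕ} {c : ℕ → ℕ → ℝ} (hc : ∀ a b, c a b = c b a) (x y : ℝ) :
    PP n c x y = PP n c y x := by
  unfold PP
  rw [Finset.sum_comm]
  refine Finset.sum_congr rfl fun a _ => Finset.sum_congr rfl fun b _ => ?_
  rw [hc b a]; ring

theorem m3_lin {N : ℕ} (n : ℕ) (c : ℕ → ℕ → ℝ) (x P R : Fin N → ℝ) :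
    ∑ a ∈ Finset.range n, ∑ b ∈ Finset.range n, c a b *
      (∑ i, x i ^ a * R i) * (∑ i, x i ^ b * P i)
      = ∑ i, R i * ∑ j, P j * PP n c (x i) (x j) := by
  have h1 : ∀ a b, c a b * (∑ i, x i ^ a * R i) * (∑ i, x i ^ b * P i)
      = ∑ i, ∑ j, R i * (P j * (c a b * x i ^ a * x j ^ b)) := by
    intro a b
    rw [mul_assoc, Finset.sum_mul_sum, Finset.mul_sum]
    refine Finset.sum_congr rfl fun i _ => ?_
    rw [Finset.mul_sum]
    refine Finset.sum_congr rfl fun j _ => ?_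
    ring
  simp_rw [h1]
  have h2 : ∀ a, ∑ b ∈ Finset.range n, ∑ i, ∑ j, R i * (P j * (c a b * x i ^ a * x j ^ b))
      = ∑ i, ∑ j, ∑ b ∈ Finset.range n, R i * (P j * (c a b * x i ^ a * x j ^ b)) := by
    intro a
    rw [Finset.sum_comm]
    refine Finset.sum_congr rfl fun i _ => ?_
    rw [Finset.sum_comm]
  simp_rw [h2]
  rw [Finset.sum_comm]
  refine Finset.sum_congr rfl fun i _ => ?_
  rw [Finset.sum_comm, Finset.mul_sum]
  refine Finset.sum_congr rfl fun j _ => ?_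
  unfold PP
  rw [Finset.mul_sum, Finset.mul_sum]
  refine Finset.sum_congr rfl fun a _ => ?_
  rw [Finset.mul_sum, Finset.mul_sum]

theorem m3_quad {N : ℕ} (n : ℕ) (c : ℕ → ℕ → ℝ) (x P : Fin N → ℝ) :
    ∑ a ∈ Finset.range n, ∑ b ∈ Finset.range n, c a b *
      (∑ r ∈ Finset.range a, (∑ i, x i ^ r * P i) * (∑ i, x i ^ (a - 1 - r) * P i))
        * (∑ i, x i ^ b * P i)
      = ∑ j, ∑ i, ∑ l, P j * P i * P l * DD n c (x i) (x l) (x j) := by
  have h1 : ∀ a b, c a b *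
      (∑ r ∈ Finset.range a, (∑ i, x i ^ r * P i) * (∑ i, x i ^ (a - 1 - r) * P i))
        * (∑ i, x i ^ b * P i)
      = ∑ j, ∑ i, ∑ l, P j * P i * P l *
        (c a b * (∑ r ∈ Finset.range a, x i ^ r * x l ^ (a - 1 - r)) * x j ^ b) := by
    intro a b
    have h2 : (∑ r ∈ Finset.range a, (∑ i, x i ^ r * P i) * (∑ i, x i ^ (a - 1 - r) * P i))
        = ∑ i, ∑ l, P i * P l * (∑ r ∈ Finset.range a, x i ^ r * x l ^ (a - 1 - r)) := by
      simp_rw [Finset.sum_mul_sum]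
      rw [Finset.sum_comm]
      refine Finset.sum_congr rfl fun i _ => ?_
      rw [Finset.sum_comm]
      refine Finset.sum_congr rfl fun l _ => ?_
      rw [Finset.mul_sum]
      refine Finset.sum_congr rfl fun r _ => ?_
      ring
    rw [h2, Finset.mul_sum]
    refine Finset.sum_congr rfl fun j _ => ?_
    rw [Finset.mul_sum, Finset.sum_mul]
    refine Finset.sum_congr rfl fun i _ => ?_
    rw [Finset.mul_sum, Finset.sum_mul]
    refine Finset.sum_congr rfl fun l _ => ?_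
    ring
  simp_rw [h1]
  have h3 : ∀ a, ∑ b ∈ Finset.range n, ∑ j, ∑ i, ∑ l, P j * P i * P l *
        (c a b * (∑ r ∈ Finset.range a, x i ^ r * x l ^ (a - 1 - r)) * x j ^ b)
      = ∑ j, ∑ i, ∑ l, ∑ b ∈ Finset.range n, P j * P i * P l *
        (c a b * (∑ r ∈ Finset.range a, x i ^ r * x l ^ (a - 1 - r)) * x j ^ b) := by
    intro a
    rw [Finset.sum_comm]
    refine Finset.sum_congr rfl fun j _ => ?_
    rw [Finset.sum_comm]
    refine Finset.sum_congr rfl fun i _ => ?_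
    rw [Finset.sum_comm]
  simp_rw [h3]
  rw [Finset.sum_comm]
  refine Finset.sum_congr rfl fun j _ => ?_
  rw [Finset.sum_comm]
  refine Finset.sum_congr rfl fun i _ => ?_
  rw [Finset.sum_comm]
  refine Finset.sum_congr rfl fun l _ => ?_
  unfold DD
  rw [Finset.mul_sum]
  refine Finset.sum_congr rfl fun a _ => ?_
  rw [Finset.mul_sum]

theorem m3_point (p q : ℂ) (t : ℝ) :
    (star q * p).re * t ≤ ‖q‖ ^ 2 + 1 / 4 * (‖p‖ ^ 2 * t ^ 2) := by
  have h1 : |(star q * p).re| ≤ ‖q‖ * ‖p‖ := by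
    refine (Complex.abs_re_le_norm _).trans ?_
    rw [norm_mul, norm_star]
  have h2 : (star q * p).re * t ≤ ‖q‖ * ‖p‖ * |t| := by
    refine (le_abs_self _).trans ?_
    rw [abs_mul]
    exact mul_le_mul_of_nonneg_right h1 (abs_nonneg t)
  have h3 : t ^ 2 = |t| ^ 2 := (sq_abs t).symm
  rw [h3]
  nlinarith [sq_nonneg (‖q‖ - ‖p‖ * |t| / 2)]

/-- M3: pointwise inequality in the eigenbasis. -/
theorem point_ineq_diag {N : ℕ} {lam : ℝ} {n : ℕ} {c : ℕ → ℕ → ℝ} (hc : Cert lam n c)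
    (x : Fin N → ℝ) (hx : ∀ i, x i ∈ Set.Icc (0:ℝ) 1) (p q : Fin N → ℂ) :
    lam * (∑ i, ‖p i‖ ^ 2) ^ 3
      + 1 / 2 * ∑ a ∈ Finset.range n, ∑ b ∈ Finset.range n, c a b *
        (2 * (∑ i, x i ^ a * (star (q i) * p i).re)
          + ∑ r ∈ Finset.range a, (∑ i, x i ^ r * ‖p i‖ ^ 2) * (∑ i, x i ^ (a - 1 - r) * ‖p i‖ ^ 2))
        * (∑ i, x i ^ b * ‖p i‖ ^ 2)
      ≤ ∑ i, ‖q i‖ ^ 2 := by
  obtain ⟨P, hP⟩ : ∃ P : Fin N → ℝ, ∀ i, ‖p i‖ ^ 2 = P i := ⟨_, fun _ => rfl⟩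
  obtain ⟨R, hR⟩ : ∃ R : Fin N → ℝ, ∀ i, (star (q i) * p i).re = R i := ⟨_, fun _ => rfl⟩
  obtain ⟨Q, hQ⟩ : ∃ Q : Fin N → ℝ, ∀ i, ‖q i‖ ^ 2 = Q i := ⟨_, fun _ => rfl⟩
  have hP0 : ∀ i, 0 ≤ P i := fun i => by rw [← hP]; positivity
  have hpt : ∀ i t, R i * t ≤ Q i + 1 / 4 * (P i * t ^ 2) := by
    intro i t
    rw [← hR, ← hQ, ← hP]
    exact m3_point _ _ _
  simp_rw [hP, hR, hQ]
  have hsplit : ∑ a ∈ Finset.range n, ∑ b ∈ Finset.range n, c a b *
        (2 * (∑ i, x i ^ a * R i)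
          + ∑ r ∈ Finset.range a, (∑ i, x i ^ r * P i) * (∑ i, x i ^ (a - 1 - r) * P i))
        * (∑ i, x i ^ b * P i)
      = 2 * (∑ a ∈ Finset.range n, ∑ b ∈ Finset.range n, c a b *
          (∑ i, x i ^ a * R i) * (∑ i, x i ^ b * P i))
        + ∑ a ∈ Finset.range n, ∑ b ∈ Finset.range n, c a b *
          (∑ r ∈ Finset.range a, (∑ i, x i ^ r * P i) * (∑ i, x i ^ (a - 1 - r) * P i))
          * (∑ i, x i ^ b * P i) := by
    rw [Finset.mul_sum (s := Finset.range n), ← Finset.sum_add_distrib]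
    refine Finset.sum_congr rfl fun a _ => ?_
    rw [Finset.mul_sum (s := Finset.range n), ← Finset.sum_add_distrib]
    refine Finset.sum_congr rfl fun b _ => ?_
    ring
  rw [hsplit, m3_lin, m3_quad]
  have hcube : (∑ i, P i) ^ 3 = ∑ i, ∑ j, ∑ l, P i * P j * P l := by
    rw [pow_succ, sq, Finset.sum_mul_sum, Finset.sum_mul]
    refine Finset.sum_congr rfl fun i _ => ?_
    rw [Finset.sum_mul]
    refine Finset.sum_congr rfl fun j _ => ?_
    rw [Finset.mul_sum]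
  have hsq : ∀ i, P i * (∑ j, P j * PP n c (x i) (x j)) ^ 2
      = ∑ j, ∑ l, P i * P j * P l * (PP n c (x j) (x i) * PP n c (x l) (x i)) := by
    intro i
    rw [sq, Finset.sum_mul_sum, Finset.mul_sum]
    refine Finset.sum_congr rfl fun j _ => ?_
    rw [Finset.mul_sum]
    refine Finset.sum_congr rfl fun l _ => ?_
    rw [m3_PP_symm hc.symm (x i) (x j), m3_PP_symm hc.symm (x i) (x l)]
    ring
  have hlin : ∑ i, R i * ∑ j, P j * PP n c (x i) (x j)
      ≤ ∑ i, Q i + 1 / 4 * ∑ i, ∑ j, ∑ l,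
        P i * P j * P l * (PP n c (x j) (x i) * PP n c (x l) (x i)) := by
    rw [Finset.mul_sum, ← Finset.sum_add_distrib]
    refine Finset.sum_le_sum fun i _ => ?_
    rw [← hsq]
    exact hpt i _
  have hcert : ∑ i, ∑ j, ∑ l, P i * P j * P l *
      (PP n c (x j) (x i) * PP n c (x l) (x i) + 2 * DD n c (x j) (x l) (x i) + 4 * lam) ≤ 0 := by
    refine Finset.sum_nonpos fun i _ => Finset.sum_nonpos fun j _ =>
      Finset.sum_nonpos fun l _ => ?_
    exact mul_nonpos_of_nonneg_of_nonpos (mul_nonneg (mul_nonneg (hP0 i) (hP0 j)) (hP0 l))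
      (hc.ineq (x j) (hx j) (x i) (hx i) (x l) (hx l))
  have hexp : ∑ i, ∑ j, ∑ l, P i * P j * P l *
      (PP n c (x j) (x i) * PP n c (x l) (x i) + 2 * DD n c (x j) (x l) (x i) + 4 * lam)
      = (∑ i, ∑ j, ∑ l, P i * P j * P l * (PP n c (x j) (x i) * PP n c (x l) (x i)))
        + 2 * (∑ i, ∑ j, ∑ l, P i * P j * P l * DD n c (x j) (x l) (x i))
        + 4 * lam * ∑ i, ∑ j, ∑ l, P i * P j * P l := by
    rw [Finset.mul_sum, Finset.mul_sum, ← Finset.sum_add_distrib, ← Finset.sum_add_distrib]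
    refine Finset.sum_congr rfl fun i _ => ?_
    rw [Finset.mul_sum, Finset.mul_sum, ← Finset.sum_add_distrib, ← Finset.sum_add_distrib]
    refine Finset.sum_congr rfl fun j _ => ?_
    rw [Finset.mul_sum, Finset.mul_sum, ← Finset.sum_add_distrib, ← Finset.sum_add_distrib]
    refine Finset.sum_congr rfl fun l _ => ?_
    ring
  rw [hexp] at hcert
  rw [hcube]
  linarith

end Pool.Agent.H935R2.LT
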