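import Mathlib
import Pool.Agent.H935R2.LT.Defs

/-! Task S1 (helper25): sharpness of the one-function constant. -/

set_option autoImplicit false

namespace Pool.Agent.H935R2.LT

open scoped BigOperators Matrix ComplexOrder
open MeasureTheory Filter Topology Set

namespace S1

noncomputable def c (x : ℝ) : ℝ := √(Real.cosh x)

theorem c_sq (x : ℝ) : c x ^ 2 = Real.cosh x := Real.sq_sqrt (Real.cosh_pos x).le

theorem c_ge (x : ℝ) : 1 ≤ c x := Real.one_le_sqrt.2 (Real.one_le_cosh x)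

theorem c_pos (x : ℝ) : 0 < c x := by linarith [c_ge x]

theorem c_deriv (x : ℝ) : HasDerivAt c (Real.sinh x / (2 * c x)) x :=
  (Real.hasDerivAt_cosh x).sqrt (Real.cosh_pos x).ne'

theorem c_contDiff : ContDiff ℝ 1 c :=
  Real.contDiff_cosh.sqrt fun x => (Real.cosh_pos x).ne'

theorem c_le {R x : ℝ} (h : |x| ≤ |R|) : c x ≤ c R :=
  Real.sqrt_le_sqrt (Real.cosh_le_cosh.2 h)

theorem c_gt {R x : ℝ} (h : |R| < |x|) : c R < c x :=
  Real.sqrt_lt_sqrt (Real.cosh_pos R).le (Real.cosh_lt_cosh.2 h)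

noncomputable def m (t : ℝ) : ℝ := (max t 0) ^ 2

theorem m_deriv (t : ℝ) : HasDerivAt m (2 * max t 0) t := by
  rcases lt_trichotomy t 0 with h | h | h
  · rw [max_eq_right h.le, mul_zero]
    refine (hasDerivAt_const t (0 : ℝ)).congr_of_eventuallyEq ?_
    filter_upwards [gt_mem_nhds h] with s hs
    simp [m, max_eq_right hs.le]
  · subst h
    rw [max_self, mul_zero, hasDerivAt_iff_isLittleO_nhds_zero]
    refine Asymptotics.IsBigO.trans_isLittleO ?_
      (Asymptotics.isLittleO_pow_id (one_lt_two : (1 : ℕ) < 2))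
    refine Asymptotics.IsBigO.of_bound 1 (Eventually.of_forall fun s => ?_)
    simp only [m, zero_add, max_self, smul_zero, sub_zero, one_mul, Real.norm_eq_abs, abs_pow]
    norm_num
    have h1 : |max s 0| ≤ |s| := by
      rw [abs_of_nonneg (le_max_right s 0)]
      exact max_le (le_abs_self s) (abs_nonneg s)
    have h2 := mul_le_mul h1 h1 (abs_nonneg _) (abs_nonneg _)
    rw [abs_mul_abs_self, abs_mul_abs_self] at h2
    nlinarith
  · rw [max_eq_left h.le]
    have h1 : HasDerivAt (fun s : ℝ => s ^ 2) (2 * t) t := by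
      simpa using hasDerivAt_pow 2 t
    refine h1.congr_of_eventuallyEq ?_
    filter_upwards [lt_mem_nhds h] with s hs
    simp [m, max_eq_left (le_of_lt hs)]

theorem m_contDiff : ContDiff ℝ 1 m := by
  rw [contDiff_one_iff_deriv]
  refine ⟨fun t => (m_deriv t).differentiableAt, ?_⟩
  have h : deriv m = fun t => 2 * max t 0 := funext fun t => (m_deriv t).deriv
  rw [h]
  fun_prop

/-- the cut off function -/
noncomputable def v (R x : ℝ) : ℝ := m (c R - c x) / (c R ^ 2 * c x)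

theorem v_contDiff (R : ℝ) : ContDiff ℝ 1 (v R) := by
  refine ContDiff.div (m_contDiff.comp (contDiff_const.sub c_contDiff))
    (contDiff_const.mul c_contDiff) fun x => ?_
  exact (mul_pos (pow_pos (c_pos R) 2) (c_pos x)).ne'

/-- derivative of the cut off function -/
noncomputable def v' (R x : ℝ) : ℝ :=
  (2 * max (c R - c x) 0 * (-(Real.sinh x / (2 * c x))) * (c R ^ 2 * c x) -
    m (c R - c x) * (c R ^ 2 * (Real.sinh x / (2 * c x)))) / (c R ^ 2 * c x) ^ 2

theorem v_deriv (R x : ℝ) : HasDerivAt (v R) (v' R x) x := by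
  have h1 : HasDerivAt (fun x => m (c R - c x))
      (2 * max (c R - c x) 0 * (-(Real.sinh x / (2 * c x)))) x :=
    HasDerivAt.comp (h₂ := m) (h := fun x => c R - c x) x (m_deriv (c R - c x))
      ((c_deriv x).const_sub (c R))
  exact h1.div ((c_deriv x).const_mul (c R ^ 2)) (mul_pos (pow_pos (c_pos R) 2) (c_pos x)).ne'

theorem v_zero {R x : ℝ} (h : |R| ≤ |x|) : v R x = 0 := by
  unfold v m
  have : c R ≤ c x := Real.sqrt_le_sqrt (Real.cosh_le_cosh.2 h)
  rw [max_eq_right (by linarith)]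
  simp

theorem v'_zero {R x : ℝ} (h : |R| ≤ |x|) : v' R x = 0 := by
  unfold v' m
  have : c R ≤ c x := Real.sqrt_le_sqrt (Real.cosh_le_cosh.2 h)
  rw [max_eq_right (by linarith)]
  simp

theorem v_eq {R x : ℝ} (h : |x| ≤ |R|) : v R x = (1 - c x / c R) ^ 2 / c x := by
  unfold v m
  have h1 := c_pos R
  have h2 := c_pos x
  rw [max_eq_left (by linarith [c_le h])]
  field_simp

theorem v'_eq {R x : ℝ} (h : |x| ≤ |R|) :
    v' R x = -(Real.sinh x / (2 * c x ^ 3)) * (1 - c x ^ 2 / c R ^ 2) := by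
  unfold v' m
  have h1 := c_pos R
  have h2 := c_pos x
  rw [max_eq_left (by linarith [c_le h])]
  field_simp
  ring

theorem ratio {R x : ℝ} (h : |x| ≤ |R|) : 0 ≤ c x / c R ∧ c x / c R ≤ 1 := by
  have h1 := c_pos R
  have h2 := c_pos x
  exact ⟨by positivity, by rw [div_le_one h1]; exact c_le h⟩

theorem v'_sq_le {R x : ℝ} (h : |x| ≤ |R|) :
    v' R x ^ 2 ≤ Real.sinh x ^ 2 / (4 * Real.cosh x ^ 3) := by
  obtain ⟨r0, r1⟩ := ratio h
  have h2 := c_pos x
  rw [v'_eq h]
  have e : Real.sinh x ^ 2 / (4 * Real.cosh x ^ 3) = (Real.sinh x / (2 * c x ^ 3)) ^ 2 := by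
    rw [← c_sq x]
    ring
  rw [e, ← div_pow, mul_pow, neg_sq]
  have h3 : (c x / c R) ^ 2 ≤ 1 := pow_le_one₀ r0 r1
  have h4 : 0 ≤ (c x / c R) ^ 2 := by positivity
  have h5 : (1 - (c x / c R) ^ 2) ^ 2 ≤ 1 := pow_le_one₀ (by linarith) (by linarith)
  have h6 := mul_le_mul_of_nonneg_left h5 (sq_nonneg (Real.sinh x / (2 * c x ^ 3)))
  linarith

theorem v_sq_le {R x : ℝ} (h : |x| ≤ |R|) : v R x ^ 2 ≤ 1 / Real.cosh x := by
  obtain ⟨r0, r1⟩ := ratio h
  have h2 := c_pos x
  rw [v_eq h, div_pow, c_sq]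
  have h3 : ((1 - c x / c R) ^ 2) ^ 2 ≤ 1 :=
    pow_le_one₀ (sq_nonneg _) (pow_le_one₀ (by linarith) (by linarith))
  exact div_le_div_of_nonneg_right h3 (Real.cosh_pos x).le

theorem v_six_ge {R x : ℝ} (h : |x| ≤ |R|) :
    1 / Real.cosh x ^ 3 - 12 / c R * (1 / Real.cosh x) ≤ v R x ^ 6 := by
  obtain ⟨r0, r1⟩ := ratio h
  have h1 := c_pos R
  have h2 := c_pos x
  have hb := one_add_mul_le_pow (show (-2 : ℝ) ≤ -(c x / c R) by linarith) 12
  have e1 : v R x ^ 6 = (1 + -(c x / c R)) ^ 12 / c x ^ 6 := by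
    rw [v_eq h]
    ring
  have e2 : Real.cosh x ^ 3 = c x ^ 6 := by
    rw [← c_sq x]
    ring
  rw [e1, e2]
  have h3 : (1 + (12 : ℕ) * -(c x / c R)) / c x ^ 6 ≤ (1 + -(c x / c R)) ^ 12 / c x ^ 6 :=
    div_le_div_of_nonneg_right hb (by positivity)
  refine le_trans ?_ h3
  have e3 : (1 + ((12 : ℕ) : ℝ) * -(c x / c R)) / c x ^ 6 =
      1 / c x ^ 6 - 12 / c R * (1 / c x ^ 5) := by
    push_cast
    field_simp
    ring
  rw [e3, ← c_sq x]
  have h4 : 1 / c x ^ 5 ≤ 1 / c x ^ 2 :=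
    one_div_le_one_div_of_le (by positivity) (pow_le_pow_right₀ (c_ge x) (by norm_num))
  have h5 : 0 ≤ 12 / c R := by positivity
  have h6 := mul_le_mul_of_nonneg_left h4 h5
  linarith

/-- antiderivatives -/
theorem d1 (x : ℝ) : HasDerivAt (fun x => Real.arctan (Real.sinh x)) (1 / Real.cosh x) x := by
  have h1 := (Real.hasDerivAt_sinh x).arctan
  refine h1.congr_deriv ?_
  have h2 := Real.cosh_pos x
  have h3 : 1 + Real.sinh x ^ 2 = Real.cosh x ^ 2 := by
    rw [Real.cosh_sq]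
    ring
  rw [h3]
  field_simp

theorem d2 (x : ℝ) : HasDerivAt (fun x => Real.sinh x / Real.cosh x ^ 2)
    (2 / Real.cosh x ^ 3 - 1 / Real.cosh x) x := by
  have h2 := Real.cosh_pos x
  have h1 := (Real.hasDerivAt_sinh x).fun_div ((Real.hasDerivAt_cosh x).fun_pow 2)
    (pow_pos h2 2).ne'
  refine h1.congr_deriv ?_
  have h3 : Real.sinh x ^ 2 = Real.cosh x ^ 2 - 1 := by
    rw [Real.cosh_sq]
    ring
  have h5 : Real.sinh x * (((2 : ℕ) : ℝ) * Real.cosh x ^ (2 - 1) * Real.sinh x) =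
      2 * Real.cosh x * Real.sinh x ^ 2 := by
    push_cast
    norm_num
    ring
  rw [h5, h3]
  field_simp
  ring

theorem int1 (R : ℝ) : ∫ x in (-R)..R, 1 / Real.cosh x = 2 * Real.arctan (Real.sinh R) := by
  rw [intervalIntegral.integral_eq_sub_of_hasDerivAt (fun x _ => d1 x)]
  · rw [Real.sinh_neg, Real.arctan_neg]
    ring
  · refine Continuous.intervalIntegrable ?_ _ _
    exact continuous_const.div Real.continuous_cosh fun x => (Real.cosh_pos x).ne'

theorem cont3 : Continuous fun x => 1 / Real.cosh x ^ 3 :=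
  continuous_const.div (Real.continuous_cosh.pow 3) fun x => (pow_pos (Real.cosh_pos x) 3).ne'

theorem cont1 : Continuous fun x => 1 / Real.cosh x :=
  continuous_const.div Real.continuous_cosh fun x => (Real.cosh_pos x).ne'

theorem int3 (R : ℝ) : ∫ x in (-R)..R, 1 / Real.cosh x ^ 3 =
    Real.arctan (Real.sinh R) + Real.sinh R / Real.cosh R ^ 2 := by
  have h : ∀ x, HasDerivAt (fun x => (1 / 2) * (Real.arctan (Real.sinh x) +
      Real.sinh x / Real.cosh x ^ 2)) (1 / Real.cosh x ^ 3) x := by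
    intro x
    refine (((d1 x).add (d2 x)).const_mul (1 / 2)).congr_deriv ?_
    ring
  rw [intervalIntegral.integral_eq_sub_of_hasDerivAt (fun x _ => h x)
    (cont3.intervalIntegrable _ _)]
  rw [Real.sinh_neg, Real.arctan_neg, Real.cosh_neg]
  ring

theorem intd (R : ℝ) : ∫ x in (-R)..R, Real.sinh x ^ 2 / (4 * Real.cosh x ^ 3) =
    (1 / 4) * (Real.arctan (Real.sinh R) - Real.sinh R / Real.cosh R ^ 2) := by
  have h : ∀ x, HasDerivAt (fun x => (1 / 8) * (Real.arctan (Real.sinh x) -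
      Real.sinh x / Real.cosh x ^ 2)) (Real.sinh x ^ 2 / (4 * Real.cosh x ^ 3)) x := by
    intro x
    refine (((d1 x).sub (d2 x)).const_mul (1 / 8)).congr_deriv ?_
    have h2 := Real.cosh_pos x
    have h3 : Real.sinh x ^ 2 = Real.cosh x ^ 2 - 1 := by
      rw [Real.cosh_sq]
      ring
    rw [h3]
    field_simp
    ring
  rw [intervalIntegral.integral_eq_sub_of_hasDerivAt (fun x _ => h x)]
  · rw [Real.sinh_neg, Real.arctan_neg, Real.cosh_neg]
    ring
  · refine Continuous.intervalIntegrable ?_ _ _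
    exact (Real.continuous_sinh.pow 2).div (continuous_const.mul (Real.continuous_cosh.pow 3))
      fun x => (mul_pos (by norm_num : (0 : ℝ) < 4) (pow_pos (Real.cosh_pos x) 3)).ne'

/-- whole line integrals of functions which vanish outside `(-R,R)` -/
theorem to_interval {R : ℝ} (hR : 0 ≤ R) (f : ℝ → ℝ) (hf : ∀ x, |R| ≤ |x| → f x = 0) :
    ∫ x, f x = ∫ x in (-R)..R, f x := by
  rw [intervalIntegral.integral_of_le (by linarith)]
  refine (setIntegral_eq_integral_of_forall_compl_eq_zero fun x hx => hf x ?_).symm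
  rw [abs_of_nonneg hR]
  by_contra hcon
  push Not at hcon
  have := abs_lt.1 hcon
  exact hx ⟨this.1, this.2.le⟩

theorem v_cont (R : ℝ) : Continuous (v R) := (v_contDiff R).continuous

theorem v'_cont (R : ℝ) : Continuous (v' R) := by
  have h := (contDiff_one_iff_deriv.1 (v_contDiff R)).2
  have e : deriv (v R) = v' R := funext fun x => (v_deriv R x).deriv
  rwa [e] at h

theorem absle {R x : ℝ} (hR : 0 ≤ R) (hx : x ∈ Icc (-R) R) : |x| ≤ |R| := by
  rw [abs_of_nonneg hR]
  exact abs_le.2 ⟨hx.1, hx.2⟩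

theorem I2_le {R : ℝ} (hR : 0 ≤ R) : ∫ x, v R x ^ 2 ≤ Real.pi := by
  rw [to_interval hR _ (fun x hx => by rw [v_zero hx]; simp)]
  have h1 : ∫ x in (-R)..R, v R x ^ 2 ≤ ∫ x in (-R)..R, 1 / Real.cosh x :=
    intervalIntegral.integral_mono_on (by linarith) (((v_cont R).pow 2).intervalIntegrable _ _)
      (cont1.intervalIntegrable _ _) fun x hx => v_sq_le (absle hR hx)
  rw [int1] at h1
  linarith [Real.arctan_lt_pi_div_two (Real.sinh R)]

theorem I1_le {R : ℝ} (hR : 0 ≤ R) : ∫ x, v' R x ^ 2 ≤ Real.pi / 8 := by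
  rw [to_interval hR _ (fun x hx => by rw [v'_zero hx]; simp)]
  have h1 : ∫ x in (-R)..R, v' R x ^ 2 ≤
      ∫ x in (-R)..R, Real.sinh x ^ 2 / (4 * Real.cosh x ^ 3) := by
    refine intervalIntegral.integral_mono_on (by linarith)
      (((v'_cont R).pow 2).intervalIntegrable _ _) ?_ fun x hx => v'_sq_le (absle hR hx)
    refine Continuous.intervalIntegrable ?_ _ _
    exact (Real.continuous_sinh.pow 2).div (continuous_const.mul (Real.continuous_cosh.pow 3))
      fun x => (mul_pos (by norm_num : (0 : ℝ) < 4) (pow_pos (Real.cosh_pos x) 3)).ne'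
  rw [intd] at h1
  have h2 : 0 ≤ Real.sinh R / Real.cosh R ^ 2 :=
    div_nonneg (Real.sinh_nonneg_iff.2 hR) (by positivity)
  linarith [Real.arctan_lt_pi_div_two (Real.sinh R)]

theorem I6_ge {R : ℝ} (hR : 0 ≤ R) :
    Real.arctan (Real.sinh R) - 12 * Real.pi / c R ≤ ∫ x, v R x ^ 6 := by
  rw [to_interval hR _ (fun x hx => by rw [v_zero hx]; simp)]
  have h1 : ∫ x in (-R)..R, (1 / Real.cosh x ^ 3 - 12 / c R * (1 / Real.cosh x)) ≤
      ∫ x in (-R)..R, v R x ^ 6 :=
    intervalIntegral.integral_mono_on (by linarith)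
      ((cont3.sub (continuous_const.mul cont1)).intervalIntegrable _ _)
      (((v_cont R).pow 6).intervalIntegrable _ _) fun x hx => v_six_ge (absle hR hx)
  have hcc : Continuous fun x => 12 / c R * (1 / Real.cosh x) := continuous_const.mul cont1
  rw [intervalIntegral.integral_sub (cont3.intervalIntegrable _ _)
    (hcc.intervalIntegrable _ _),
    intervalIntegral.integral_const_mul, int1, int3] at h1
  have h2 : 0 ≤ Real.sinh R / Real.cosh R ^ 2 :=
    div_nonneg (Real.sinh_nonneg_iff.2 hR) (by positivity)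
  have h3 := c_pos R
  have h4 : 12 / c R * (2 * Real.arctan (Real.sinh R)) ≤ 12 / c R * Real.pi :=
    mul_le_mul_of_nonneg_left (by linarith [Real.arctan_lt_pi_div_two (Real.sinh R)])
      (by positivity)
  have h5 : 12 / c R * Real.pi = 12 * Real.pi / c R := by ring
  linarith

theorem lim : Tendsto (fun R => Real.arctan (Real.sinh R) - 12 * Real.pi / c R) atTop
    (𝓝 (Real.pi / 2)) := by
  have h1 : Tendsto (fun R => Real.arctan (Real.sinh R)) atTop (𝓝 (Real.pi / 2)) := by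
    have h2 : Tendsto Real.arctan atTop (𝓝 (Real.pi / 2)) :=
      tendsto_nhds_of_tendsto_nhdsWithin Real.tendsto_arctan_atTop
    refine h2.comp ?_
    refine tendsto_atTop_mono' _ ?_ tendsto_id
    filter_upwards [eventually_ge_atTop 0] with R hR
    exact Real.self_le_sinh_iff.2 hR
  have h3 : Tendsto c atTop atTop := by
    unfold c
    refine Real.tendsto_sqrt_atTop.comp ?_
    refine tendsto_atTop_mono (fun R => ?_) tendsto_id
    have := Real.cosh_sq R
    have h4 := Real.cosh_pos R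
    have h5 : Real.sinh R ≤ Real.cosh R := (Real.sinh_lt_cosh R).le
    show R ≤ Real.cosh R
    rcases le_total R 0 with h | h
    · linarith
    · exact (Real.self_le_sinh_iff.2 h).trans h5
  have h6 : Tendsto (fun R => 12 * Real.pi / c R) atTop (𝓝 0) :=
    h3.const_div_atTop _
  simpa using h1.sub h6

end S1

/-- S1: sharpness of the constant with one function. -/
theorem sharp_one (eps : ℝ) (he : 0 < eps) :
    ∃ u : ℝ → ℂ, ContDiff ℝ 1 u ∧ HasCompactSupport u ∧ (∫ x, star (u x) * u x = 1) ∧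
      (∫ x, ‖deriv u x‖ ^ 2) ≤ (Real.pi ^ 2 / 4 + eps) * ∫ x, ‖u x‖ ^ 6 := by
  have hpi := Real.pi_pos
  set K : ℝ := (Real.pi ^ 3 / 8) / (Real.pi ^ 2 / 4 + eps) with hK
  have hK1 : K < Real.pi / 2 := by
    rw [hK, div_lt_iff₀ (by positivity)]
    nlinarith
  have hev := (S1.lim.eventually (lt_mem_nhds hK1)).and (eventually_gt_atTop 0)
  obtain ⟨R, hR1, hR0⟩ := hev.exists
  have hI1 := S1.I1_le hR0.le
  have hI2 := S1.I2_le hR0.le
  have hI6 := S1.I6_ge hR0.le
  set v := S1.v R with hv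
  set v' := S1.v' R with hv'
  have hvd : ∀ x, HasDerivAt v (v' x) x := S1.v_deriv R
  have hsupp : HasCompactSupport v := by
    refine HasCompactSupport.intro (isCompact_Icc (a := -R) (b := R)) fun x hx => ?_
    apply S1.v_zero
    rw [abs_of_pos hR0]
    by_contra hcon
    push Not at hcon
    have := abs_lt.1 hcon
    exact hx ⟨this.1.le, this.2.le⟩
  have hKpos : 0 < K := by positivity
  have hI6' : K < ∫ x, v x ^ 6 := lt_of_lt_of_le hR1 hI6
  -- positivity of the mass
  have ha : 0 < ∫ x, v x ^ 2 := by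
    have h0 : 0 ≤ ∫ x, v x ^ 2 := integral_nonneg fun x => sq_nonneg _
    rcases h0.lt_or_eq with h | h
    · exact h
    exfalso
    have hint : Integrable (fun x => v x ^ 2) := by
      refine Continuous.integrable_of_hasCompactSupport ((S1.v_cont R).pow 2) ?_
      exact hsupp.comp_left (g := fun t : ℝ => t ^ 2) (by simp)
    have h1 := (integral_eq_zero_iff_of_nonneg (fun x => sq_nonneg (v x)) hint).1 h.symm
    have h2 : ∫ x, v x ^ 6 = 0 := by
      rw [integral_eq_zero_of_ae]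
      filter_upwards [h1] with x hx
      have h3 : v x ^ 2 = 0 := hx
      have h4 : v x = 0 := by
        exact pow_eq_zero_iff (two_ne_zero) |>.1 h3
      simp [h4]
    linarith
  set a := ∫ x, v x ^ 2 with haa
  set b : ℝ := (√a)⁻¹ with hb
  have hb2 : b ^ 2 = a⁻¹ := by
    rw [hb, inv_pow, Real.sq_sqrt ha.le]
  refine ⟨fun x => ((b * v x : ℝ) : ℂ), ?_, ?_, ?_, ?_⟩
  · exact Complex.ofRealCLM.contDiff.comp (contDiff_const.mul (S1.v_contDiff R))
  · exact hsupp.comp_left (g := fun t : ℝ => ((b * t : ℝ) : ℂ)) (by simp)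
  · have e : ∀ x, star ((b * v x : ℝ) : ℂ) * ((b * v x : ℝ) : ℂ) = ((a⁻¹ * v x ^ 2 : ℝ) : ℂ) := by
      intro x
      rw [← hb2, Complex.star_def, Complex.conj_ofReal, ← Complex.ofReal_mul]
      congr 1
      ring
    simp only [e]
    rw [integral_complex_ofReal, integral_const_mul, ← haa, inv_mul_cancel₀ ha.ne']
    simp
  · have e1 : ∀ x, ‖deriv (fun x => ((b * v x : ℝ) : ℂ)) x‖ ^ 2 = a⁻¹ * v' x ^ 2 := by
      intro x
      have h1 : HasDerivAt (fun x => ((b * v x : ℝ) : ℂ)) ((b * v' x : ℝ) : ℂ) x :=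
        ((hvd x).const_mul b).ofReal_comp
      rw [h1.deriv, Complex.norm_real, Real.norm_eq_abs, sq_abs, mul_pow, hb2]
    have e2 : ∀ x, ‖((b * v x : ℝ) : ℂ)‖ ^ 6 = a⁻¹ ^ 3 * v x ^ 6 := by
      intro x
      rw [Complex.norm_real, Real.norm_eq_abs]
      have h2 : |b * v x| ^ 6 = (|b * v x| ^ 2) ^ 3 := by ring
      rw [h2, sq_abs, mul_pow, hb2]
      ring
    simp only [e1, e2]
    rw [integral_const_mul, integral_const_mul]
    have h3 : (∫ x, v' x ^ 2) * a ^ 2 ≤ (Real.pi ^ 2 / 4 + eps) * ∫ x, v x ^ 6 := by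
      have h4 : (∫ x, v' x ^ 2) * a ^ 2 ≤ Real.pi / 8 * Real.pi ^ 2 := by
        have h5 : a ^ 2 ≤ Real.pi ^ 2 := pow_le_pow_left₀ ha.le hI2 2
        exact mul_le_mul hI1 h5 (sq_nonneg a) (by positivity)
      have h6 : (Real.pi ^ 2 / 4 + eps) * K = Real.pi ^ 3 / 8 := by
        rw [hK]
        field_simp
      have h7 : (Real.pi ^ 2 / 4 + eps) * K ≤ (Real.pi ^ 2 / 4 + eps) * ∫ x, v x ^ 6 :=
        mul_le_mul_of_nonneg_left hI6'.le (by positivity)
      nlinarith
    have h8 : a⁻¹ * ∫ x, v' x ^ 2 = a⁻¹ ^ 3 * ((∫ x, v' x ^ 2) * a ^ 2) := by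
      field_simp
    rw [h8]
    have h9 := mul_le_mul_of_nonneg_left h3 (show 0 ≤ a⁻¹ ^ 3 by positivity)
    linarith

end Pool.Agent.H935R2.LT
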