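import Pool.Agent.H935R2.LT.Defs

set_option autoImplicit false

namespace Pool.Agent.H935R2.LT

open scoped BigOperators Matrix ComplexOrder
open MeasureTheory

/-- C1: the trigonometric inequality. -/
theorem phi_ineq (A eta : ℝ) (hA : 0 < A) (heta : 0 < eta) (h : A + eta < Real.pi)
    (s t : ℝ) (hs : s ∈ Set.Icc (0:ℝ) 2) (ht : t ∈ Set.Icc (0:ℝ) 2) (hst : s ≠ t)
    (hd : |s - t| ≤ 1) :
    (A * (Real.cos (A * s / 2 + eta) / Real.sin (A * s / 2 + eta)))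
      * (A * (Real.cos (A * t / 2 + eta) / Real.sin (A * t / 2 + eta)))
      + 2 * ((A * (Real.cos (A * s / 2 + eta) / Real.sin (A * s / 2 + eta))
        - A * (Real.cos (A * t / 2 + eta) / Real.sin (A * t / 2 + eta))) / (s - t))
      + A ^ 2 ≤ 0 := by
  sorry

/-- C2: polynomial approximation with derivative (Weierstrass for the derivative, then integrate). -/
theorem poly_approx (f f' : ℝ → ℝ) (hf : ∀ x ∈ Set.Icc (0:ℝ) 2, HasDerivWithinAt f (f' x) (Set.Icc 0 2) x)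
    (hf' : ContinuousOn f' (Set.Icc 0 2)) (eps : ℝ) (he : 0 < eps) :
    ∃ p : Polynomial ℝ, (∀ x ∈ Set.Icc (0:ℝ) 2, |p.eval x - f x| ≤ eps) ∧
      (∀ x ∈ Set.Icc (0:ℝ) 2, |p.derivative.eval x - f' x| ≤ eps) := by
  sorry

/-- C3: expansion of `p(x+y)` and of its divided difference. -/
theorem poly_expand (p : Polynomial ℝ) :
    ∃ (n : ℕ) (c : ℕ → ℕ → ℝ), (∀ a b, c a b = c b a) ∧
      (∀ x y, PP n c x y = p.eval (x + y)) ∧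
      (∀ x z y, x ≠ z → DD n c x z y = (p.eval (x + y) - p.eval (z + y)) / (x - z)) ∧
      (∀ x y, DD n c x x y = p.derivative.eval (x + y)) := by
  sorry

/-- C4: the certificate exists for all `lam < pi^2/4` (from C1, C2, C3). -/
theorem cert_exists (lam : ℝ) (h : lam < Real.pi ^ 2 / 4) : ∃ n c, Cert lam n c := by
  sorry

/-- M1: derivative of the moments. -/
theorem hasDerivAt_mom {N : ℕ} (M : ℝ → Matrix (Fin N) (Fin N) ℂ) (u : ℝ → Fin N → ℂ)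
    (v : Fin N → ℂ) (x : ℝ) (hM : ∀ y, (M y).IsHermitian)
    (hM' : ∀ i j, HasDerivAt (fun y => M y i j) (u x i * star (u x j)) x)
    (hu : ∀ i, HasDerivAt (fun y => u y i) (v i) x) (a : ℕ) :
    HasDerivAt (fun y => mom (M y) (u y) a) (dmom (M x) (u x) v a) x := by
  sorry

/-- M2: diagonalisation of the moments. -/
theorem mom_diag {N : ℕ} (M : Matrix (Fin N) (Fin N) ℂ) (hM : M.PosSemidef)
    (hM1 : (1 - M).PosSemidef) (u v : Fin N → ℂ) :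
    ∃ (x : Fin N → ℝ) (p q : Fin N → ℂ), (∀ i, x i ∈ Set.Icc (0:ℝ) 1) ∧
      (∀ a, mom M u a = ∑ i, x i ^ a * ‖p i‖ ^ 2) ∧
      (∀ a, (star v ⬝ᵥ ((M ^ a) *ᵥ u)).re = ∑ i, x i ^ a * (star (q i) * p i).re) ∧
      (∑ i, ‖u i‖ ^ 2 = ∑ i, ‖p i‖ ^ 2) ∧ (∑ i, ‖v i‖ ^ 2 = ∑ i, ‖q i‖ ^ 2) := by
  sorry

/-- M3: pointwise inequality in the eigenbasis. -/
theorem point_ineq_diag {N : ℕ} {lam : ℝ} {n : ℕ} {c : ℕ → ℕ → ℝ} (hc : Cert lam n c)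
    (x : Fin N → ℝ) (hx : ∀ i, x i ∈ Set.Icc (0:ℝ) 1) (p q : Fin N → ℂ) :
    lam * (∑ i, ‖p i‖ ^ 2) ^ 3
      + 1 / 2 * ∑ a ∈ Finset.range n, ∑ b ∈ Finset.range n, c a b *
        (2 * (∑ i, x i ^ a * (star (q i) * p i).re)
          + ∑ r ∈ Finset.range a, (∑ i, x i ^ r * ‖p i‖ ^ 2) * (∑ i, x i ^ (a - 1 - r) * ‖p i‖ ^ 2))
        * (∑ i, x i ^ b * ‖p i‖ ^ 2)
      ≤ ∑ i, ‖q i‖ ^ 2 := by
  sorry

/-- I1: properties of `M(x) = int_{-infty}^x u u^*`. -/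
theorem Mprops {N : ℕ} (u : Fin N → ℝ → ℂ)
    (hu : ∀ n, ContDiff ℝ 1 (u n) ∧ HasCompactSupport (u n))
    (ho : ∀ n m, ∫ x, star (u n x) * u m x = if n = m then (1 : ℂ) else 0) :
    ∃ M : ℝ → Matrix (Fin N) (Fin N) ℂ,
      (∀ x, (M x).PosSemidef) ∧ (∀ x, (1 - M x).PosSemidef) ∧
      (∀ x i j, HasDerivAt (fun y => M y i j) (u i x * star (u j x)) x) := by
  sorry

/-- I2: integration. `F = 1/4 sum c_ab m_a m_b`. -/
theorem integrate {N : ℕ} (u : Fin N → ℝ → ℂ)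
    (hu : ∀ n, ContDiff ℝ 1 (u n) ∧ HasCompactSupport (u n))
    (M : ℝ → Matrix (Fin N) (Fin N) ℂ) (hM : ∀ x, (M x).PosSemidef)
    (hM' : ∀ x i j, HasDerivAt (fun y => M y i j) (u i x * star (u j x)) x)
    (lam : ℝ) (n : ℕ) (c : ℕ → ℕ → ℝ) (hc : ∀ a b, c a b = c b a)
    (hpt : ∀ x, lam * (∑ i, ‖u i x‖ ^ 2) ^ 3
      + 1 / 2 * ∑ a ∈ Finset.range n, ∑ b ∈ Finset.range n, c a b *
        dmom (M x) (fun i => u i x) (fun i => deriv (u i) x) a * mom (M x) (fun i => u i x) b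
      ≤ ∑ i, ‖deriv (u i) x‖ ^ 2) :
    lam * ∫ x, (∑ i, ‖u i x‖ ^ 2) ^ 3 ≤ ∑ i, ∫ x, ‖deriv (u i) x‖ ^ 2 := by
  sorry

/-- Main theorem (Lieb-Thirring, d = 1, gamma = 1, kinetic form). -/
theorem lieb_thirring_one {N : ℕ} (u : Fin N → ℝ → ℂ)
    (hu : ∀ n, ContDiff ℝ 1 (u n) ∧ HasCompactSupport (u n))
    (ho : ∀ n m, ∫ x, star (u n x) * u m x = if n = m then (1 : ℂ) else 0) :
    Real.pi ^ 2 / 4 * ∫ x, (∑ i, ‖u i x‖ ^ 2) ^ 3 ≤ ∑ i, ∫ x, ‖deriv (u i) x‖ ^ 2 := by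
  sorry

/-- S1: sharpness of the constant with one function. -/
theorem sharp_one (eps : ℝ) (he : 0 < eps) :
    ∃ u : ℝ → ℂ, ContDiff ℝ 1 u ∧ HasCompactSupport u ∧ (∫ x, star (u x) * u x = 1) ∧
      (∫ x, ‖deriv u x‖ ^ 2) ≤ (Real.pi ^ 2 / 4 + eps) * ∫ x, ‖u x‖ ^ 6 := by
  sorry

end Pool.Agent.H935R2.LT
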